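import Pool.Agent.PX.F.FInt
import Pool.Agent.PX.Bas
import Pool.Agent.TG.Lf
import Pool.Agent.G3.F.LiftH

/-!
# PX F Crv: lifts of the curves

`Cn (k + 1) = Vd (k + 1) = Fin (k + 1) → ℂ`; `EN 1 = EuclideanSpace ℂ (Fin 2)`; `form θ y x.ofLp = Fo θ y x`.  `torus_disc`, `torus_univ`, `torus_half`: as `glue_disc` in `G3/F/LiftH` (local lifts modulo the discrete subgroup `Λ` glue on discs, on `ℂ` and on the half plane: the derivatives of the local
lifts agree and have a primitive; the half plane is convex, holomorphic functions on convex open sets have primitives, or use the exhaustion by discs / the map `ζ ↦ (1 + ζ) / (1 - ζ)` from the disc).  `lift_disc`: `TG/Lf`, `disc_lift` for `z ↦ pr (g z)` (or `BP/Lift`, `lift_disc`).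
`lift_univ`: `H17.exists_global_lift` or `G3.entire_lift`.
-/

set_option autoImplicit false

open Topology Filter Metric

namespace Pool.Agent.PX

open Pool.Agent.H17 (PN HolomorphicInto puncturedDisc)
open Pool.Agent.H36.BP (EN fs wd)
open Pool.Agent.H62.EF (MN pr)
open Pool.Agent.AD (Vd)
open Pool.Agent.TG (Lat Gd)
open Pool.Agent.G3 (wt TT LLift)
open Pool.Agent.PXF (Cn form ThreePoints Avoids HolomorphicIntoTorus IsCurve)

variable {k d : ℕ} {Λ : AddSubgroup (Vd (k + 1))} {θ : Fin (d + 1) → Vd (k + 1) → ℂ}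

theorem form_eq (θ : Fin (d + 1) → Vd (k + 1) → ℂ) (y : Vd (k + 1)) (x : EN 1) : form θ y x.ofLp = Fo θ y x := rfl

private theorem dt_iff (x v : EN 1) : dt x v ≠ 0 ↔ x.ofLp 0 * v.ofLp 1 ≠ x.ofLp 1 * v.ofLp 0 := by
  rw [dt, sub_ne_zero]

theorem three_iff (θ : Fin (d + 1) → Vd (k + 1) → ℂ) (y : Vd (k + 1)) : ThreePoints θ y ↔ ∃ x₁ x₂ x₃ : EN 1, Fo θ y x₁ = 0 ∧ Fo θ y x₂ = 0 ∧ Fo θ y x₃ = 0 ∧
    dt x₁ x₂ ≠ 0 ∧ dt x₁ x₃ ≠ 0 ∧ dt x₂ x₃ ≠ 0 := by
  constructor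
  · rintro ⟨x₁, x₂, x₃, h1, h2, h3, h4, h5, h6⟩
    exact ⟨WithLp.toLp 2 x₁, WithLp.toLp 2 x₂, WithLp.toLp 2 x₃, h1, h2, h3, (dt_iff _ _).2 h4, (dt_iff _ _).2 h5, (dt_iff _ _).2 h6⟩
  · rintro ⟨x₁, x₂, x₃, h1, h2, h3, h4, h5, h6⟩
    exact ⟨x₁.ofLp, x₂.ofLp, x₃.ofLp, h1, h2, h3, (dt_iff _ _).1 h4, (dt_iff _ _).1 h5, (dt_iff _ _).1 h6⟩

/-- avoiding `E` in terms of representatives -/
theorem avoids_mk {y : Vd (k + 1)} {x : EN 1} (hx : x.ofLp ≠ 0) (h : Avoids Λ θ (y : Cn (k + 1) ⧸ Λ) (Projectivization.mk ℂ x.ofLp hx)) : Fo θ y x ≠ 0 := by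
  have h1 := h y rfl
  obtain ⟨a, ha⟩ := Projectivization.exists_smul_eq_mk_rep ℂ x.ofLp hx
  rw [← ha] at h1
  intro h2
  apply h1
  have h3 := fo_smul θ y (a : ℂ) x
  rw [h2, mul_zero] at h3
  exact h3

/-- local lifts modulo a discrete subgroup glue on an open connected set where holomorphic functions have primitives -/
private theorem glue {E : Type*} [NormedAddCommGroup E] [NormedSpace ℂ E] {Λ : AddSubgroup E} {δ : ℝ} (hδ : 0 < δ)
    (hΛ : ∀ l ∈ Λ, ‖l‖ < δ → l = 0) {w : ℂ → E} {U : Set ℂ} (hUo : IsOpen U) (hUc : IsPreconnected U) {c : ℂ} (hcc : c ∈ U)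
    (hprim : ∀ ψ : ℂ → E, DifferentiableOn ℂ ψ U → ∃ g : ℂ → E, ∀ z ∈ U, HasDerivAt g (ψ z) z)
    (hloc : ∀ z₀ ∈ U, ∃ h : ℂ → E, AnalyticAt ℂ h z₀ ∧ ∀ᶠ z in 𝓝 z₀, w z - h z ∈ Λ) [CompleteSpace E] :
    ∃ h : ℂ → E, DifferentiableOn ℂ h U ∧ ∀ z ∈ U, w z - h z ∈ Λ := by
  classical
  choose! H hHan hHmem using hloc
  obtain ⟨ψ, hψ⟩ : ∃ ψ : ℂ → E, ψ = fun z => deriv (H z) z := ⟨_, rfl⟩
  -- the local derivatives agree
  have hagree : ∀ z₀ ∈ U, ψ =ᶠ[𝓝 z₀] deriv (H z₀) := by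
    intro z₀ hz₀
    filter_upwards [hUo.mem_nhds hz₀, (hHan z₀ hz₀).eventually_analyticAt, (hHmem z₀ hz₀).eventually_nhds] with z h1 h2 h3
    rw [hψ]
    have h4 : ContinuousAt (fun y => H z y - H z₀ y) z := (hHan z h1).continuousAt.sub h2.continuousAt
    have h5 : ∀ᶠ y in 𝓝 z, ‖(H z y - H z₀ y) - (H z z - H z₀ z)‖ < δ := by
      have h6 : Tendsto (fun y => (H z y - H z₀ y) - (H z z - H z₀ z)) (𝓝 z) (𝓝 ((H z z - H z₀ z) - (H z z - H z₀ z))) := h4.tendsto.sub_const _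
      rw [sub_self] at h6
      have h7 := h6.norm
      rw [norm_zero] at h7
      exact h7.eventually (gt_mem_nhds hδ)
    have h8 : H z =ᶠ[𝓝 z] fun y => H z₀ y + (H z z - H z₀ z) := by
      have h9 := (hHmem z h1).self_of_nhds
      have h10 := h3.self_of_nhds
      filter_upwards [h5, hHmem z h1, h3] with y h11 h12 h13
      have h14 : (H z y - H z₀ y) - (H z z - H z₀ z) ∈ Λ := by
        have h15 := Λ.sub_mem (Λ.sub_mem h13 h12) (Λ.sub_mem h10 h9)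
        have h16 : w y - H z₀ y - (w y - H z y) - (w z - H z₀ z - (w z - H z z)) = (H z y - H z₀ y) - (H z z - H z₀ z) := by abel
        rwa [h16] at h15
      have h17 := hΛ _ h14 h11
      rw [sub_eq_zero, sub_eq_iff_eq_add] at h17
      rw [h17]
      abel
    change deriv (H z) z = deriv (H z₀) z
    rw [h8.deriv_eq, deriv_add_const]
  have hψd : DifferentiableOn ℂ ψ U := by
    intro z₀ hz₀
    have h1 : DifferentiableAt ℂ (deriv (H z₀)) z₀ := (hHan z₀ hz₀).deriv.differentiableAt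
    exact (h1.congr_of_eventuallyEq (hagree z₀ hz₀)).differentiableWithinAt
  obtain ⟨g, hg⟩ := hprim ψ hψd
  refine ⟨fun z => g z + (w c - g c), fun z hz => ((hg z hz).differentiableAt.add_const _).differentiableWithinAt, ?_⟩
  -- the difference is locally constant modulo the subgroup
  have hind : ∀ x ∈ U, ∀ y ∈ U, (w x - g x) - (w y - g y) ∈ Λ := by
    intro x hx y hy
    refine hUc.induction₂ (fun x y => (w x - g x) - (w y - g y) ∈ Λ) ?_ ?_ ?_ hx hy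
    · intro z₀ hz₀
      apply mem_nhdsWithin_of_mem_nhds
      have hder : ∀ᶠ z in 𝓝 z₀, HasDerivAt (fun z => H z₀ z - g z) 0 z := by
        filter_upwards [hUo.mem_nhds hz₀, (hHan z₀ hz₀).eventually_analyticAt, hagree z₀ hz₀] with z h1 h2 h3
        have h4 := h2.differentiableAt.hasDerivAt.sub (hg z h1)
        rwa [h3, sub_self] at h4
      obtain ⟨ε, hε, hball⟩ := Metric.eventually_nhds_iff_ball.1 hder
      have hconst : ∀ z ∈ ball z₀ ε, H z₀ z - g z = H z₀ z₀ - g z₀ := by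
        intro z hz
        exact (convex_ball z₀ ε).is_const_of_fderivWithin_eq_zero (𝕜 := ℂ) (f := fun z => H z₀ z - g z)
          (fun y hy => (hball y hy).differentiableAt.differentiableWithinAt)
          (fun y hy => by
            rw [fderivWithin_of_isOpen isOpen_ball hy]
            ext1
            exact (hball y hy).deriv) hz (mem_ball_self hε)
      have h0 := (hHmem z₀ hz₀).self_of_nhds
      filter_upwards [hHmem z₀ hz₀, isOpen_ball.mem_nhds (mem_ball_self hε)] with z h1 h2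
      have h3 := hconst z h2
      have h4 := Λ.sub_mem h0 h1
      have h5 : (w z₀ - g z₀) - (w z - g z) = (w z₀ - H z₀ z₀ - (w z - H z₀ z)) + ((H z₀ z₀ - g z₀) - (H z₀ z - g z)) := by abel
      change (w z₀ - g z₀) - (w z - g z) ∈ Λ
      rw [h5, h3, sub_self, add_zero]
      exact h4
    · intro x y z _ _ _ h1 h2
      have h3 := Λ.add_mem h1 h2
      have h4 : (w x - g x) - (w z - g z) = ((w x - g x) - (w y - g y)) + ((w y - g y) - (w z - g z)) := by abel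
      rw [h4]
      exact h3
    · intro x y _ _ h1
      have h2 := Λ.neg_mem h1
      rwa [neg_sub] at h2
  intro z hz
  have h1 := hind z hz c hcc
  have h2 : w z - (g z + (w c - g c)) = (w z - g z) - (w c - g c) := by abel
  rw [h2]
  exact h1

private theorem mk_iff {a b : Vd (k + 1)} : (a : Cn (k + 1) ⧸ Λ) = (b : Cn (k + 1) ⧸ Λ) ↔ a - b ∈ Λ := by
  rw [eq_comm, QuotientAddGroup.eq, neg_add_eq_sub]

private theorem torus_glue (hΛ : Lat Λ) {t : ℂ → Cn (k + 1) ⧸ Λ} {U : Set ℂ} (hUo : IsOpen U) (hUc : IsPreconnected U) {c : ℂ} (hcc : c ∈ U)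
    (hprim : ∀ ψ : ℂ → Vd (k + 1), DifferentiableOn ℂ ψ U → ∃ g : ℂ → Vd (k + 1), ∀ z ∈ U, HasDerivAt g (ψ z) z) (ht : HolomorphicIntoTorus Λ t U) :
    ∃ h : ℂ → Vd (k + 1), DifferentiableOn ℂ h U ∧ ∀ z ∈ U, t z = (h z : Cn (k + 1) ⧸ Λ) := by
  obtain ⟨δ, hδ, hd⟩ := hΛ.disc
  have hw : ∀ z, ((Quotient.out (t z) : Vd (k + 1)) : Cn (k + 1) ⧸ Λ) = t z := fun z => Quotient.out_eq (t z)
  obtain ⟨h, h1, h2⟩ := glue hδ hd (w := fun z => (Quotient.out (t z) : Vd (k + 1))) hUo hUc hcc hprim (fun z₀ hz₀ => by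
    obtain ⟨h, h1, h2⟩ := ht z₀ hz₀
    refine ⟨h, h1, ?_⟩
    filter_upwards [h2] with z hz
    rw [← mk_iff, hw, hz])
  refine ⟨h, h1, fun z hz => ?_⟩
  rw [← hw z]
  exact mk_iff.2 (h2 z hz)

theorem torus_disc (hΛ : Lat Λ) {t : ℂ → Cn (k + 1) ⧸ Λ} {c : ℂ} {R : ℝ} (ht : HolomorphicIntoTorus Λ t (ball c R)) :
    ∃ h : ℂ → Vd (k + 1), DifferentiableOn ℂ h (ball c R) ∧ ∀ z ∈ ball c R, t z = (h z : Cn (k + 1) ⧸ Λ) := by
  rcases le_or_gt R 0 with hR | hR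
  · refine ⟨fun _ => 0, differentiableOn_const _, fun z hz => ?_⟩
    rw [ball_eq_empty.mpr hR] at hz
    exact hz.elim
  · exact torus_glue hΛ isOpen_ball (convex_ball c R).isPreconnected (mem_ball_self hR) (fun ψ hψ => hψ.isExactOn_ball) ht

theorem torus_univ (hΛ : Lat Λ) {t : ℂ → Cn (k + 1) ⧸ Λ} (ht : HolomorphicIntoTorus Λ t Set.univ) :
    ∃ h : ℂ → Vd (k + 1), Differentiable ℂ h ∧ ∀ z, t z = (h z : Cn (k + 1) ⧸ Λ) := by
  obtain ⟨h, h1, h2⟩ := torus_glue hΛ isOpen_univ isPreconnected_univ (Set.mem_univ 0) (fun ψ hψ => (differentiableOn_univ.1 hψ).isExactOn_univ) ht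
  exact ⟨h, differentiableOn_univ.1 h1, fun z => h2 z (Set.mem_univ z)⟩

/-- the lift of a map of the punctured disc to the half plane -/
theorem torus_half (hΛ : Lat Λ) {t : ℂ → Cn (k + 1) ⧸ Λ} (ht : HolomorphicIntoTorus Λ t puncturedDisc) :
    ∃ h : ℂ → Vd (k + 1), DifferentiableOn ℂ h {ζ | ζ.re < 0} ∧ ∀ ζ : ℂ, ζ.re < 0 → t (Complex.exp ζ) = (h ζ : Cn (k + 1) ⧸ Λ) := by
  -- the Cayley transform
  set φ : ℂ → ℂ := fun ω => -(1 + ω) / (1 - ω) with hφ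
  have hne : ∀ ω ∈ ball (0 : ℂ) 1, 1 - ω ≠ 0 := fun ω hω h => by
    rw [mem_ball_zero_iff, ← sub_eq_zero.1 h, norm_one] at hω
    exact lt_irrefl _ hω
  have hre : ∀ ω ∈ ball (0 : ℂ) 1, (φ ω).re < 0 := by
    intro ω hω
    have h1 : 0 < Complex.normSq (1 - ω) := Complex.normSq_pos.2 (hne ω hω)
    have h2 : ω.re ^ 2 + ω.im ^ 2 < 1 := by
      have h3 : ‖ω‖ ^ 2 < 1 := by
        rw [mem_ball_zero_iff] at hω
        have := norm_nonneg ω
        nlinarith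
      rw [← Complex.normSq_eq_norm_sq, Complex.normSq_apply] at h3
      nlinarith
    have h3 : (φ ω).re = (ω.re ^ 2 + ω.im ^ 2 - 1) / Complex.normSq (1 - ω) := by
      simp only [hφ, Complex.div_re, Complex.neg_re, Complex.add_re, Complex.one_re, Complex.sub_re, Complex.neg_im, Complex.add_im, Complex.one_im, Complex.sub_im]
      rw [← add_div]
      congr 1
      ring
    rw [h3]
    exact div_neg_of_neg_of_pos (by linarith) h1
  have hexp : ∀ ζ : ℂ, ζ.re < 0 → Complex.exp ζ ∈ puncturedDisc := fun ζ hζ => by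
    refine ⟨?_, ?_⟩
    · rw [mem_ball_zero_iff, Complex.norm_exp]
      exact Real.exp_lt_one_iff.2 hζ
    · exact Complex.exp_ne_zero ζ
  have hφa : ∀ ω ∈ ball (0 : ℂ) 1, AnalyticAt ℂ φ ω := fun ω hω =>
    ((analyticAt_const.add analyticAt_id).neg).div (analyticAt_const.sub analyticAt_id) (hne ω hω)
  obtain ⟨h, h1, h2⟩ := torus_disc hΛ (t := fun ω => t (Complex.exp (φ ω))) (c := 0) (R := 1) (fun ω hω => by
    obtain ⟨f, f1, f2⟩ := ht _ (hexp _ (hre ω hω))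
    have h3 : AnalyticAt ℂ (fun ω => Complex.exp (φ ω)) ω := (hφa ω hω).cexp
    exact ⟨fun ω => f (Complex.exp (φ ω)), f1.comp_of_eq h3 rfl, h3.continuousAt.eventually f2⟩)
  have hζ1 : ∀ ζ : ℂ, ζ.re < 0 → ζ - 1 ≠ 0 := fun ζ hζ h => by
    rw [sub_eq_zero.1 h] at hζ
    norm_num at hζ
  have hin : ∀ ζ : ℂ, ζ.re < 0 → (ζ + 1) / (ζ - 1) ∈ ball (0 : ℂ) 1 := fun ζ hζ => by
    rw [mem_ball_zero_iff, norm_div, div_lt_one (norm_pos_iff.2 (hζ1 ζ hζ))]
    refine lt_of_pow_lt_pow_left₀ 2 (norm_nonneg _) ?_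
    rw [← Complex.normSq_eq_norm_sq, ← Complex.normSq_eq_norm_sq, Complex.normSq_apply, Complex.normSq_apply]
    simp only [Complex.add_re, Complex.sub_re, Complex.one_re, Complex.add_im, Complex.sub_im, Complex.one_im]
    nlinarith
  have hinv : ∀ ζ : ℂ, ζ.re < 0 → φ ((ζ + 1) / (ζ - 1)) = ζ := fun ζ hζ => by
    have h3 := hζ1 ζ hζ
    have h4 : 1 - (ζ + 1) / (ζ - 1) = -2 / (ζ - 1) := by
      field_simp
      ring
    have h5 : -(1 + (ζ + 1) / (ζ - 1)) = ζ * (-2 / (ζ - 1)) := by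
      field_simp
      ring
    simp only [hφ]
    rw [h4, h5, mul_div_assoc, div_self, mul_one]
    exact div_ne_zero (by norm_num) h3
  refine ⟨fun ζ => h ((ζ + 1) / (ζ - 1)), ?_, fun ζ hζ => ?_⟩
  · refine h1.comp ?_ fun ζ hζ => hin ζ hζ
    intro ζ hζ
    have e1 : DifferentiableAt ℂ (fun ζ : ℂ => ζ + 1) ζ := differentiableAt_id.add_const 1
    have e2 : DifferentiableAt ℂ (fun ζ : ℂ => ζ - 1) ζ := differentiableAt_id.sub_const 1
    exact (e1.div e2 (hζ1 ζ hζ)).differentiableWithinAt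
  · have h3 := h2 _ (hin ζ hζ)
    simp only [hinv ζ hζ] at h3
    exact h3

private theorem ofLp_ne {x : EN 1} (hx : x ≠ 0) : x.ofLp ≠ 0 := by
  intro h
  apply hx
  ext j
  exact congrFun h j

private theorem mk_of_pr {w : EN 1} (hw : w ≠ 0) {p : PN 1} (h : pr (WithLp.toLp 2 p.rep : EN 1) = pr w) : ∃ h' : w.ofLp ≠ 0, p = Projectivization.mk ℂ w.ofLp h' := by
  have h1 : (WithLp.toLp 2 p.rep : EN 1) ≠ 0 := fun h2 => p.rep_nonzero (by
    funext j
    exact congrArg (fun v : EN 1 => v.ofLp j) h2)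
  obtain ⟨c, -, h3⟩ := (Pool.Agent.H62.EF.pr_eq_iff h1 hw).1 h
  refine ⟨ofLp_ne hw, ?_⟩
  rw [← Projectivization.mk_rep p, Projectivization.mk_eq_mk_iff']
  exact ⟨c, by
    have h4 := congrArg (fun v : EN 1 => v.ofLp) h3
    exact h4.symm⟩

/-- local lifts in the language of `LLift` -/
private theorem llift_of' {g : ℂ → PN 1} {z₀ : ℂ} {U : Set ℂ} (hg : HolomorphicInto g U) (hz : z₀ ∈ U) :
    LLift (fun z => pr (WithLp.toLp 2 (g z).rep : EN 1)) z₀ := by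
  obtain ⟨φ, h1, h2⟩ := hg z₀ hz
  refine ⟨fun z => WithLp.toLp 2 (φ z), ?_, ?_⟩
  · exact ((PiLp.continuousLinearEquiv 2 ℂ (fun _ : Fin (1 + 1) => ℂ)).symm.toContinuousLinearMap.analyticAt (φ z₀)).comp h1
  · filter_upwards [h2] with z hz
    obtain ⟨h3, h4⟩ := hz
    have h5 : (WithLp.toLp 2 (φ z) : EN 1) ≠ 0 := fun h6 => h3 (by
      funext j
      exact congrArg (fun v : EN 1 => v.ofLp j) h6)
    refine ⟨h5, ?_⟩
    obtain ⟨a, ha⟩ := Projectivization.exists_smul_eq_mk_rep ℂ (φ z) h3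
    rw [h4, ← ha]
    exact Pool.Agent.H62.EF.pr_smul (WithLp.toLp 2 (φ z) : EN 1) a.ne_zero

/-- the lift of a curve on a disc -/
theorem lift_disc {h : ℂ → Vd (k + 1)} {g : ℂ → PN 1} {c : ℂ} {R : ℝ} (hh : DifferentiableOn ℂ h (ball c R)) (hg : HolomorphicInto g (ball c R))
    (ha : ∀ z ∈ ball c R, Avoids Λ θ (h z : Cn (k + 1) ⧸ Λ) (g z)) {r : ℝ} (hr : r < R) :
    ∃ w : ℂ → EN 1, Cp θ (ball c r) w h ∧ ∀ z ∈ ball c r, ∃ h' : (w z).ofLp ≠ 0, g z = Projectivization.mk ℂ (w z).ofLp h' := by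
  obtain ⟨F, hF, hFg⟩ := Pool.Agent.TG.disc_lift (f := fun z => pr (WithLp.toLp 2 (g (c + z)).rep : EN 1)) (R := R) (fun z hz => by
    have h1 : c + z ∈ ball c R := by
      rw [mem_ball_iff_norm, add_sub_cancel_left, ← mem_ball_zero_iff]
      exact hz
    obtain ⟨Φ, h2, h3⟩ := llift_of' hg h1
    have h4 : AnalyticAt ℂ (fun z : ℂ => c + z) z := analyticAt_const.add analyticAt_id
    exact ⟨fun z => Φ (c + z), h2.comp_of_eq h4 rfl, h4.continuousAt.eventually h3⟩) hr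
  have hin : ∀ z ∈ ball c r, z - c ∈ ball (0 : ℂ) r := fun z hz => by
    rw [mem_ball_zero_iff, ← mem_ball_iff_norm]
    exact hz
  have hmk : ∀ z ∈ ball c r, ∃ h' : (F (z - c)).ofLp ≠ 0, g z = Projectivization.mk ℂ (F (z - c)).ofLp h' := fun z hz => by
    obtain ⟨h1, h2⟩ := hFg _ (hin z hz)
    simp only [add_sub_cancel] at h2
    exact mk_of_pr h1 h2
  refine ⟨fun z => F (z - c), ⟨?_, hh.mono (ball_subset_ball hr.le), fun z hz => ?_⟩, hmk⟩
  · exact hF.comp (differentiable_id.sub_const c).differentiableOn hin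
  · obtain ⟨h', h1⟩ := hmk z hz
    have h2 := ha z (ball_subset_ball hr.le hz)
    rw [h1] at h2
    exact avoids_mk h' h2

theorem lift_univ {h : ℂ → Vd (k + 1)} {g : ℂ → PN 1} (hh : Differentiable ℂ h) (hg : HolomorphicInto g Set.univ)
    (ha : ∀ z, Avoids Λ θ (h z : Cn (k + 1) ⧸ Λ) (g z)) :
    ∃ w : ℂ → EN 1, Differentiable ℂ w ∧ ∀ z, Fo θ (h z) (w z) ≠ 0 ∧ ∃ h' : (w z).ofLp ≠ 0, g z = Projectivization.mk ℂ (w z).ofLp h' := by
  obtain ⟨F, hF, hFg⟩ := Pool.Agent.G3.entire_lift (f := fun z => pr (WithLp.toLp 2 (g z).rep : EN 1)) fun z => llift_of' hg (Set.mem_univ z)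
  refine ⟨F, hF, fun z => ?_⟩
  obtain ⟨h1, h2⟩ := hFg z
  obtain ⟨h', h3⟩ := mk_of_pr h1 h2
  have h4 := ha z
  rw [h3] at h4
  exact ⟨avoids_mk h' h4, h', h3⟩

/-- local lifts in the language of `LLift` -/
theorem llift_of {g : ℂ → PN 1} {z₀ : ℂ} {U : Set ℂ} (hg : HolomorphicInto g U) (hz : z₀ ∈ U) :
    LLift (fun z => pr (WithLp.toLp 2 (g z).rep : EN 1)) z₀ := llift_of' hg hz

end Pool.Agent.PX
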