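import Pool.Agent.AD.T.Defs
import Pool.Agent.H7.Bir.Map
import Pool.Agent.H17EF.PNDefs
import Pool.Agent.H62.SA.Defs

/-!
# PX FDefs: complements of hypersurfaces in `A × ℙ¹`: the definitions of the final theorem

`A = ℂ^n / Λ`, `n = k + 1`, is a complex torus.

* `IsCurveIn`, `IsHyperbolicModulo`, `IsFiniteOver`: for a subset `T` of `A × ℙ^m`, and a set `S` of special points of `A`, the holomorphic curves in `T`; hyperbolicity of `T` modulo the fibres over `S`; and quasi-projective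
  varieties which are quasi-finite over `T`.
* `IsThetaForm`: `θ 0, …, θ d` are sections of a positive line bundle on `A`, that is theta functions on `ℂ^n` with a common factor of automorphy.  `form θ y x = ∑ θ i y * x 0 ^ i * x 1 ^ (d - i)`; the hypersurface
  `E ⊆ A × ℙ¹` is the set of its zeros, `complement Λ θ` its complement.  `ThreePoints θ y`: the fibre over `y` contains three points of `E`; `fewPoints Λ θ`: the set of the other points of `A`.
-/

set_option autoImplicit false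

open Topology Filter MvPolynomial
open Pool.Agent.H17 (PN VanishesAt HolomorphicInto puncturedDisc)
open Pool.Agent.H62.SA (locVar)
open Pool.Agent.H17EF (projVar)
open Pool.Agent.AD (IsHolomorphicTorusMap)
open Pool.Agent.H7.Bir (vals rmap)

noncomputable section

namespace Pool.Agent.PXF

/-- `ℂ^n` -/
abbrev Cn (n : ℕ) : Type := Fin n → ℂ

variable {N k d m : ℕ}

/-- The torus is simple: a complex subspace `W ≠ 0` which is the real span of its lattice points is the whole space. -/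
def IsSimple {n : ℕ} (Λ : AddSubgroup (Cn n)) : Prop :=
  ∀ W : Submodule ℂ (Cn n), W ≠ ⊥ → (∀ v ∈ W, v ∈ Submodule.span ℝ {l : Cn n | l ∈ Λ ∧ l ∈ W}) → W = ⊤

/-- `t` is holomorphic on the open set `U` as a map to the torus. -/
def HolomorphicIntoTorus (Λ : AddSubgroup (Cn (k + 1))) (t : ℂ → Cn (k + 1) ⧸ Λ) (U : Set ℂ) : Prop :=
  ∀ z₀ ∈ U, ∃ h : ℂ → Cn (k + 1), AnalyticAt ℂ h z₀ ∧ ∀ᶠ z in 𝓝 z₀, t z = (h z : Cn (k + 1) ⧸ Λ)

/-- `(t, g)` is a holomorphic map from the open set `U` to the subset `T` of `A × ℙ^m`. -/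
structure IsCurveIn (Λ : AddSubgroup (Cn (k + 1))) (T : Set ((Cn (k + 1) ⧸ Λ) × PN m)) (t : ℂ → Cn (k + 1) ⧸ Λ) (g : ℂ → PN m) (U : Set ℂ) : Prop where
  torus : HolomorphicIntoTorus Λ t U
  proj : HolomorphicInto g U
  mem : ∀ z ∈ U, (t z, g z) ∈ T

/-- Hyperbolicity of the subset `T` of `A × ℙ^m` modulo the fibres over the subset `S` of `A`. -/
structure IsHyperbolicModulo (Λ : AddSubgroup (Cn (k + 1))) (T : Set ((Cn (k + 1) ⧸ Λ) × PN m)) (S : Set (Cn (k + 1) ⧸ Λ)) : Prop where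
  /-- there is a constant `C` such that the component in `A` of every holomorphic map from the unit disc to `T` has derivative at most `C` at `0` -/
  discs : ∃ C : ℝ, ∀ (h : ℂ → Cn (k + 1)) (g : ℂ → PN m), AnalyticAt ℂ h 0 → IsCurveIn Λ T (fun z => (h z : Cn (k + 1) ⧸ Λ)) g (Metric.ball 0 1) → ‖deriv h 0‖ ≤ C
  /-- every entire curve in `T` lies in a fibre, and is constant if this is not a fibre over a point of `S` -/
  entire : ∀ (t : ℂ → Cn (k + 1) ⧸ Λ) (g : ℂ → PN m), IsCurveIn Λ T t g Set.univ → ∀ z w, t z = t w ∧ (t z ∉ S → g z = g w)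
  /-- every holomorphic map from the punctured disc to `T` extends to a holomorphic map from the disc to `A × ℙ^m`, if it does not map into the fibres over `S`; the component in `A` extends in any case -/
  punctured : ∀ (t : ℂ → Cn (k + 1) ⧸ Λ) (g : ℂ → PN m), IsCurveIn Λ T t g puncturedDisc →
    (∃ t' : ℂ → Cn (k + 1) ⧸ Λ, HolomorphicIntoTorus Λ t' (Metric.ball 0 1) ∧ ∀ z ∈ puncturedDisc, t' z = t z) ∧
    ((∃ z ∈ puncturedDisc, t z ∉ S) → ∃ g' : ℂ → PN m, HolomorphicInto g' (Metric.ball 0 1) ∧ ∀ z ∈ puncturedDisc, g' z = g z)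

/-- `U = locVar P G` is a quasi-projective variety, with closure `X` in `ℙ^N`, and `(u, v)` a holomorphic map from `X` to `A × ℙ^m` with finite fibres which maps `U` to `T`; a form on `ℙ^N`, not `0` on `X`, is `0` at the
points over `S`. -/
structure IsFiniteOver (P : Ideal (MvPolynomial (Fin (N + 1)) ℂ)) {s : ℕ} (G : Fin s → MvPolynomial (Fin (N + 1)) ℂ) (Λ : AddSubgroup (Cn (k + 1)))
    (T : Set ((Cn (k + 1) ⧸ Λ) × PN m)) (S : Set (Cn (k + 1) ⧸ Λ)) (u : PN N → Cn (k + 1) ⧸ Λ) (v : PN N → PN m) : Prop where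
  torus : IsHolomorphicTorusMap (projVar P) Λ u
  regular : ∀ x ∈ projVar P, ∃ (D : ℕ) (γ : Fin (m + 1) → MvPolynomial (Fin (N + 1)) ℂ), (∀ i, (γ i).IsHomogeneous D) ∧ vals γ x.rep ≠ 0 ∧
    ∀ x' ∈ projVar P, vals γ x'.rep ≠ 0 → v x' = rmap γ x'
  finite : ∀ x ∈ projVar P, {x' | x' ∈ projVar P ∧ u x' = u x ∧ v x' = v x}.Finite
  maps : ∀ x ∈ locVar P G, (u x, v x) ∈ T
  special : ∃ (e : ℕ) (R : MvPolynomial (Fin (N + 1)) ℂ), R.IsHomogeneous e ∧ R ∉ P ∧ ∀ x ∈ projVar P, u x ∈ S → VanishesAt R x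

/-- The binary form `∑ θ_i(y) x_0^i x_1^(d-i)`. -/
def form (θ : Fin (d + 1) → Cn (k + 1) → ℂ) (y : Cn (k + 1)) (x : Cn 2) : ℂ := ∑ i : Fin (d + 1), θ i y * x 0 ^ (i : ℕ) * x 1 ^ (d - (i : ℕ))

/-- The functions `θ i` are sections of a positive line bundle on the torus. -/
structure IsThetaForm (Λ : AddSubgroup (Cn (k + 1))) (θ : Fin (d + 1) → Cn (k + 1) → ℂ) : Prop where
  holomorphic : ∀ i, Differentiable ℂ (θ i)
  /-- the functions `|θ i y| exp (- ∑ |W j y|²)` are `Λ`-periodic, and the factors of automorphy of the `θ i` are the same for all `i`; the weight is positive definite -/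
  quasiPeriodic : ∃ (r : ℕ) (W : Fin r → Cn (k + 1) →L[ℂ] ℂ), (∀ y, (∀ j, W j y = 0) → y = 0) ∧
    ∀ l ∈ Λ, ∀ y, ∃ e : ℂ, ‖e‖ = Real.exp (∑ j, ‖W j (y + l)‖ ^ 2 - ∑ j, ‖W j y‖ ^ 2) ∧ ∀ i, θ i (y + l) = e * θ i y

/-- Over some point `y` the form has no multiple zeros, and the `θ i` have no common zeros in codimension one. -/
structure IsReduced (θ : Fin (d + 1) → Cn (k + 1) → ℂ) : Prop where
  simpleZeros : ∃ y, ∀ x, x ≠ 0 → form θ y x = 0 → fderiv ℂ (form θ y) x ≠ 0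
  /-- near a common zero of the `θ i` the zeros of `form θ y b`, `b` fixed, are not all common zeros -/
  codimension : ∀ y, (∀ i, θ i y = 0) → ∀ b : Cn 2, ∃ᶠ z in 𝓝 y, form θ z b = 0 ∧ ∃ i, θ i z ≠ 0

/-- The fibre over `y` contains three points of `E`. -/
def ThreePoints (θ : Fin (d + 1) → Cn (k + 1) → ℂ) (y : Cn (k + 1)) : Prop :=
  ∃ x₁ x₂ x₃ : Cn 2, form θ y x₁ = 0 ∧ form θ y x₂ = 0 ∧ form θ y x₃ = 0 ∧ x₁ 0 * x₂ 1 ≠ x₁ 1 * x₂ 0 ∧ x₁ 0 * x₃ 1 ≠ x₁ 1 * x₃ 0 ∧ x₂ 0 * x₃ 1 ≠ x₂ 1 * x₃ 0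

/-- No affine line of `ℂ^n` lies over the set of the points over which there are at most two points of `E`, or a whole fibre; and no entire curve in `E` lies over an affine line. -/
structure HasNoLines (θ : Fin (d + 1) → Cn (k + 1) → ℂ) : Prop where
  threePoints : ∀ a y : Cn (k + 1), a ≠ 0 → ∃ z : ℂ, (∃ i, θ i (y + z • a) ≠ 0) ∧ ThreePoints θ (y + z • a)
  roots : ∀ a y : Cn (k + 1), a ≠ 0 → ¬ ∃ G : ℂ → Cn 2, Differentiable ℂ G ∧ (∀ z, G z ≠ 0) ∧ ∀ z, form θ (y + z • a) (G z) = 0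

/-- The complement of `E` in `A × ℙ¹`. -/
def complement (Λ : AddSubgroup (Cn (k + 1))) (θ : Fin (d + 1) → Cn (k + 1) → ℂ) : Set ((Cn (k + 1) ⧸ Λ) × PN 1) :=
  {q | ∀ y : Cn (k + 1), (y : Cn (k + 1) ⧸ Λ) = q.1 → form θ y q.2.rep ≠ 0}

/-- The set of the points of `A` over which there are at most two points of `E`. -/
def fewPoints (Λ : AddSubgroup (Cn (k + 1))) (θ : Fin (d + 1) → Cn (k + 1) → ℂ) : Set (Cn (k + 1) ⧸ Λ) :=
  {t | ∃ y : Cn (k + 1), (y : Cn (k + 1) ⧸ Λ) = t ∧ ¬ ThreePoints θ y}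

/-- The Kobayashi–Royden metric of the complement of `E` is bounded below near the fibres which contain three points of `E` and are not contained in `E` (the component in `ℙ¹`; homogeneous coordinates `φ`,
Fubini–Study metric). -/
def KobayashiPositive (Λ : AddSubgroup (Cn (k + 1))) (θ : Fin (d + 1) → Cn (k + 1) → ℂ) : Prop :=
  ∀ y, ThreePoints θ y → (∃ i, θ i y ≠ 0) → ∃ C : ℝ, ∀ᶠ y' : Cn (k + 1) in 𝓝 y, ∀ (t : ℂ → Cn (k + 1) ⧸ Λ) (g : ℂ → PN 1) (φ : ℂ → Cn 2), IsCurveIn Λ (complement Λ θ) t g (Metric.ball 0 1) →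
    t 0 = (y' : Cn (k + 1) ⧸ Λ) → AnalyticAt ℂ φ 0 → (∀ᶠ z in 𝓝 (0 : ℂ), ∃ h : φ z ≠ 0, g z = Projectivization.mk ℂ (φ z) h) →
    ‖φ 0 0 * deriv φ 0 1 - φ 0 1 * deriv φ 0 0‖ ≤ C * (‖φ 0 0‖ ^ 2 + ‖φ 0 1‖ ^ 2)

end Pool.Agent.PXF
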