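import Pool.Agent.HE.FDefs

/-!
# PX F CDefs: reduced hypersurfaces of `A × ℙ¹`

`F y` is a binary form of degree `d ≥ 3` whose coefficients are theta functions of `y`, of a positive line bundle on the simple torus `A`.
-/

set_option autoImplicit false

open Topology Filter MvPolynomial
open Pool.Agent.H17 (PN VanishesAt)
open Pool.Agent.PXF (Cn IsSimple)

noncomputable section

namespace Pool.Agent.HEF

variable {k : ℕ}

/-- The binary form `f` has at least three zeros. -/
def HasThreeZeros (f : MvPolynomial (Fin 2) ℂ) : Prop :=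
  ∃ p₁ p₂ p₃ : PN 1, VanishesAt f p₁ ∧ VanishesAt f p₂ ∧ VanishesAt f p₃ ∧ p₁ ≠ p₂ ∧ p₁ ≠ p₃ ∧ p₂ ≠ p₃

/-- The set of the other points of `A`. -/
def fewZeros (Λ : AddSubgroup (Cn (k + 1))) (F : Cn (k + 1) → MvPolynomial (Fin 2) ℂ) : Set (Cn (k + 1) ⧸ Λ) :=
  {t | ∃ y : Cn (k + 1), (y : Cn (k + 1) ⧸ Λ) = t ∧ ¬ HasThreeZeros (F y)}

/-- The divisor `{F = 0}` of `A × ℙ¹`, `A` simple, of degree `d ≥ 3` over `A`, is ample, has no multiple component and contains no hypersurface `Γ × ℙ¹`. -/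
structure IsReducedDivisor (Λ : AddSubgroup (Cn (k + 1))) (F : Cn (k + 1) → MvPolynomial (Fin 2) ℂ) (d : ℕ) : Prop where
  simple : IsSimple Λ
  degree : 3 ≤ d
  form : IsHolomorphicForm Set.univ F d
  ample : IsAmple Λ F
  /-- over some point `y` the form has no multiple zeros -/
  simpleZeros : ∃ y, ∀ x : Cn 2, x ≠ 0 → eval x (F y) = 0 → ∃ i, eval x (pderiv i (F y)) ≠ 0
  /-- near a point where the form is `0` the zeros of `F y b`, `b` fixed, are not all such points -/
  codimension : ∀ y, F y = 0 → ∀ b : Cn 2, ∃ᶠ z in 𝓝 y, eval b (F z) = 0 ∧ F z ≠ 0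

end Pool.Agent.HEF
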