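import Pool.Agent.PX.F.Comp
import Pool.Agent.H62.Qe.Ext
import Pool.Agent.H92.GGL.CasWei
import Pool.Agent.TG.SmA

/-!
# PX F Clu: a curve on the punctured disc with finitely many limit points extends

`u ∘ f` and `v ∘ f` have the limits `t' 0`, `g' 0`; by compactness of `projVar P` all limit points of `f` at `0` (of unit vectors of homogeneous coordinates) are points `x` of `projVar P` with `u x = t' 0`, `v x = g' 0` (continuity of `u`, `v`: local formulas), finitely many; the punctured discs are connected, so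
there is only one limit point; in an affine chart around it the coordinates of `f` are bounded and holomorphic, so they extend.
-/

set_option autoImplicit false

open Topology Filter Metric MvPolynomial

namespace Pool.Agent.PX

open Pool.Agent.H17 (PN VanishesAt HolomorphicInto puncturedDisc ZariskiClosedIn)
open Pool.Agent.H17LG.Variety (FunField IsLogGeneralType)
open Pool.Agent.H62.FC (Homog)
open Pool.Agent.H62.SA (locVar OnBd)
open Pool.Agent.H17EF (projVar)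
open Pool.Agent.H36.BP (EN fs wd)
open Pool.Agent.H62.EF (MN pr)
open Pool.Agent.AD (Vd IsHolomorphicTorusMap)
open Pool.Agent.TG (Lat Gd)
open Pool.Agent.G3 (wt TT LLift)
open Pool.Agent.G4 (Few Simp)
open Pool.Agent.PXF (Cn form IsSimple IsThetaForm IsReduced HasNoLines ThreePoints Avoids HolomorphicIntoTorus IsCurve IsCurveIn IsHyperbolicModulo IsFiniteOver complement fewPoints KobayashiPositive)
open Pool.Agent.G4F (GGLCOpen)
open Pool.Agent.H7.Bir (vals rmap)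

variable {N k d r : ℕ} {Λ : AddSubgroup (Vd (k + 1))} {D : Set (Vd (k + 1))} {Bad : Vd (k + 1) → Set (Vd (k + 1))} {θ : Fin (d + 1) → Vd (k + 1) → ℂ}
  {W : Fin r → Vd (k + 1) →L[ℂ] ℂ}

/-- the cross product norm -/
private noncomputable def Clu_cr (a w : Fin (N + 1) → ℂ) : ℝ := ∑ i, ∑ j, ‖w i * a j - w j * a i‖

private theorem Clu_cr_smul (a w : Fin (N + 1) → ℂ) (c : ℂ) : Clu_cr a (c • w) = ‖c‖ * Clu_cr a w := by
  unfold Clu_cr
  rw [Finset.mul_sum]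
  refine Finset.sum_congr rfl fun i _ => ?_
  rw [Finset.mul_sum]
  refine Finset.sum_congr rfl fun j _ => ?_
  rw [← norm_mul]
  congr 1
  simp only [Pi.smul_apply, smul_eq_mul]
  ring

private theorem Clu_cr_cont (a : Fin (N + 1) → ℂ) : Continuous (Clu_cr a) := by
  unfold Clu_cr
  fun_prop

private theorem Clu_prop {M : ℕ} {a w : Fin (M + 1) → ℂ} {j : Fin (M + 1)} (ha : a j ≠ 0) (h : ∀ i j, w i * a j = w j * a i) : w = (w j / a j) • a := by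
  funext i
  rw [Pi.smul_apply, smul_eq_mul, div_mul_eq_mul_div, eq_div_iff ha]
  exact h i j

private theorem Clu_cr_zero {a w : Fin (N + 1) → ℂ} {j : Fin (N + 1)} (ha : a j ≠ 0) (h : Clu_cr a w = 0) : w = (w j / a j) • a := by
  refine Clu_prop ha fun i j => ?_
  unfold Clu_cr at h
  rw [Finset.sum_eq_zero_iff_of_nonneg (fun i _ => Finset.sum_nonneg fun j _ => norm_nonneg _)] at h
  have h1 := h i (Finset.mem_univ _)
  rw [Finset.sum_eq_zero_iff_of_nonneg (fun j _ => norm_nonneg _)] at h1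
  exact sub_eq_zero.1 (norm_eq_zero.1 (h1 j (Finset.mem_univ _)))

private theorem Clu_cr_self (a : Fin (N + 1) → ℂ) : Clu_cr a a = 0 := by
  unfold Clu_cr
  refine Finset.sum_eq_zero fun i _ => Finset.sum_eq_zero fun j _ => ?_
  rw [mul_comm, sub_self, norm_zero]

/-- a continuous function with finitely many limit values has a limit -/
private theorem Clu_lim {F : ℂ → ℝ} (hF : ContinuousOn F puncturedDisc) {T : Set ℝ} (hT : T.Finite)
    (h : ∀ 𝒰 : Ultrafilter ℂ, (𝒰 : Filter ℂ) ≤ 𝓝[≠] 0 → ∃ t ∈ T, Tendsto F 𝒰 (𝓝 t))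
    (𝒰₀ : Ultrafilter ℂ) (h₀ : (𝒰₀ : Filter ℂ) ≤ 𝓝[≠] 0) {t₀ : ℝ} (ht₀ : Tendsto F 𝒰₀ (𝓝 t₀)) : Tendsto F (𝓝[≠] 0) (𝓝 t₀) := by
  have key : ∀ (𝒰 𝒱 : Ultrafilter ℂ) (s t : ℝ), (𝒰 : Filter ℂ) ≤ 𝓝[≠] 0 → (𝒱 : Filter ℂ) ≤ 𝓝[≠] 0 → Tendsto F 𝒰 (𝓝 s) → Tendsto F 𝒱 (𝓝 t) → ¬ s < t := by
    intro 𝒰 𝒱 s t h𝒰 h𝒱 hs ht hst
    obtain ⟨c, hc1, hc2⟩ := ((Set.Ioo_infinite hst).sdiff hT).nonempty
    have hfreq : ∃ᶠ z in 𝓝[≠] (0 : ℂ), F z = c := by
      rw [Filter.frequently_iff]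
      intro U hU
      obtain ⟨ε, hε, hεU⟩ := Metric.mem_nhdsWithin_iff.1 hU
      have hR : 0 < min ε 1 := lt_min hε one_pos
      have hA : {z : ℂ | 0 < ‖z‖ ∧ ‖z‖ < min ε 1} ∈ 𝓝[≠] (0 : ℂ) := by
        refine Metric.mem_nhdsWithin_iff.2 ⟨min ε 1, hR, fun z hz => ⟨norm_pos_iff.2 hz.2, ?_⟩⟩
        exact mem_ball_zero_iff.1 hz.1
      obtain ⟨z, hz1, hz2⟩ := ((hs.eventually_lt_const hc1.1).and (h𝒰 hA)).exists
      obtain ⟨z', hz1', hz2'⟩ := ((ht.eventually_const_lt hc1.2).and (h𝒱 hA)).exists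
      have hsub : {z : ℂ | 0 < ‖z‖ ∧ ‖z‖ < min ε 1} ⊆ puncturedDisc := fun y hy =>
        ⟨mem_ball_zero_iff.2 (lt_of_lt_of_le hy.2 (min_le_right _ _)), norm_pos_iff.1 hy.1⟩
      obtain ⟨y, hy, hyc⟩ := (Pool.Agent.H92.GGL.isPreconnected_punctured (min ε 1)).intermediate_value hz2 hz2' (hF.mono hsub) ⟨hz1.le, hz1'.le⟩
      exact ⟨y, hεU ⟨mem_ball_zero_iff.2 (lt_of_lt_of_le hy.2 (min_le_left _ _)), norm_pos_iff.1 hy.1⟩, hyc⟩
    have : (𝓝[≠] (0 : ℂ) ⊓ 𝓟 {z | F z = c}).NeBot := Filter.frequently_mem_iff_neBot.1 hfreq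
    obtain ⟨t', ht', hl⟩ := h (Ultrafilter.of (𝓝[≠] (0 : ℂ) ⊓ 𝓟 {z | F z = c})) ((Ultrafilter.of_le _).trans inf_le_left)
    have h1 : ∀ᶠ z in (Ultrafilter.of (𝓝[≠] (0 : ℂ) ⊓ 𝓟 {z | F z = c}) : Filter ℂ), c = F z := by
      have h2 : {z | F z = c} ∈ (Ultrafilter.of (𝓝[≠] (0 : ℂ) ⊓ 𝓟 {z | F z = c}) : Filter ℂ) := (Ultrafilter.of_le _) (mem_inf_of_right (mem_principal_self _))
      filter_upwards [h2] with z hz
      exact hz.symm
    have h3 : t' = c := tendsto_nhds_unique hl (tendsto_const_nhds.congr' h1)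
    exact hc2 (h3 ▸ ht')
  rw [tendsto_iff_ultrafilter]
  intro 𝒰 h𝒰
  obtain ⟨t₁, -, ht₁⟩ := h 𝒰 h𝒰
  have h1 := key 𝒰 𝒰₀ t₁ t₀ h𝒰 h₀ ht₁ ht₀
  have h2 := key 𝒰₀ 𝒰 t₀ t₁ h₀ h𝒰 ht₀ ht₁
  have h3 : t₁ = t₀ := le_antisymm (not_lt.1 h2) (not_lt.1 h1)
  rw [← h3]
  exact ht₁

/-- the representative of norm one -/
private noncomputable def Clu_w (x : PN N) : Fin (N + 1) → ℂ := (‖x.rep‖ : ℂ)⁻¹ • x.rep

private theorem Clu_w_norm (x : PN N) : ‖Clu_w x‖ = 1 := by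
  have h := norm_ne_zero_iff.2 x.rep_nonzero
  rw [Clu_w, norm_smul, norm_inv, Complex.norm_real, norm_norm, inv_mul_cancel₀ h]

private theorem Clu_w_ne (x : PN N) : Clu_w x ≠ 0 := by
  intro h
  have h1 := Clu_w_norm x
  rw [h, norm_zero] at h1
  exact zero_ne_one h1

private theorem Clu_mk_w (x : PN N) : Projectivization.mk ℂ (Clu_w x) (Clu_w_ne x) = x := by
  have h := norm_ne_zero_iff.2 x.rep_nonzero
  conv_rhs => rw [← Projectivization.mk_rep x]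
  rw [Projectivization.mk_eq_mk_iff']
  exact ⟨(‖x.rep‖ : ℂ)⁻¹, rfl⟩

/-- the function `cr a` on points given by any homogeneous coordinates -/
private theorem Clu_cr_w (a : Fin (N + 1) → ℂ) {x : PN N} {y : Fin (N + 1) → ℂ} (hy : y ≠ 0) (hx : x = Projectivization.mk ℂ y hy) : Clu_cr a (Clu_w x) = ‖y‖⁻¹ * Clu_cr a y := by
  have h1 : Projectivization.mk ℂ x.rep x.rep_nonzero = Projectivization.mk ℂ y hy := by rw [Projectivization.mk_rep, hx]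
  rw [Projectivization.mk_eq_mk_iff'] at h1
  obtain ⟨c, hc⟩ := h1
  have hc0 : c ≠ 0 := by
    rintro rfl
    rw [zero_smul] at hc
    exact x.rep_nonzero hc.symm
  rw [Clu_w, ← hc, norm_smul, smul_smul, Clu_cr_smul, norm_mul, norm_inv, Complex.norm_real, Real.norm_eq_abs, abs_of_nonneg (by positivity)]
  have h2 : ‖y‖ ≠ 0 := norm_ne_zero_iff.2 hy
  have h3 : ‖c‖ ≠ 0 := norm_ne_zero_iff.2 hc0
  field_simp

private theorem Clu_disc_mem : puncturedDisc ∈ 𝓝[≠] (0 : ℂ) := sdiff_mem_nhdsWithin_compl (Metric.ball_mem_nhds _ one_pos) _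

/-- the limit points of the curve -/
private theorem Clu_point {P : Ideal (MvPolynomial (Fin (N + 1)) ℂ)} {s m : ℕ} {G : Fin s → MvPolynomial (Fin (N + 1)) ℂ} (hΛ : Lat Λ) {T : Set ((Cn (k + 1) ⧸ Λ) × PN m)} {S : Set (Cn (k + 1) ⧸ Λ)}
    {u : PN N → Cn (k + 1) ⧸ Λ} {v : PN N → PN m} (h : IsFiniteOver P G Λ T S u v)
    {f : ℂ → PN N} (hfU : ∀ z ∈ puncturedDisc, f z ∈ projVar P) {t' : ℂ → Cn (k + 1) ⧸ Λ} {g' : ℂ → PN m} (ht : HolomorphicIntoTorus Λ t' (ball 0 1))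
    (hg : HolomorphicInto g' (ball 0 1)) (htf : ∀ z ∈ puncturedDisc, t' z = u (f z)) (hgf : ∀ z ∈ puncturedDisc, g' z = v (f z))
    (𝒰 : Ultrafilter ℂ) (h𝒰 : (𝒰 : Filter ℂ) ≤ 𝓝[≠] 0) {w : Fin (N + 1) → ℂ} (hw : w ≠ 0) (hlim : Tendsto (fun z => Clu_w (f z)) 𝒰 (𝓝 w)) :
    Projectivization.mk ℂ w hw ∈ projVar P ∧ u (Projectivization.mk ℂ w hw) = t' 0 ∧ v (Projectivization.mk ℂ w hw) = g' 0 := by
  have hpd : ∀ᶠ z in (𝒰 : Filter ℂ), z ∈ puncturedDisc := h𝒰 Clu_disc_mem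
  have h0 : (𝒰 : Filter ℂ) ≤ 𝓝 0 := h𝒰.trans nhdsWithin_le_nhds
  have hX : Projectivization.mk ℂ w hw ∈ projVar P := by
    intro Q hQ n hn
    rw [Pool.Agent.H17.vanishesAt_mk_iff hn]
    have h1 : Tendsto (fun z => eval (Clu_w (f z)) Q) 𝒰 (𝓝 (eval w Q)) := ((MvPolynomial.continuous_eval Q).tendsto w).comp hlim
    have h2 : ∀ᶠ z in (𝒰 : Filter ℂ), 0 = eval (Clu_w (f z)) Q := by
      filter_upwards [hpd] with z hz
      have h3 := hfU z hz Q hQ n hn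
      rw [← Clu_mk_w (f z), Pool.Agent.H17.vanishesAt_mk_iff hn] at h3
      exact h3.symm
    exact tendsto_nhds_unique h1 (tendsto_const_nhds.congr' h2)
  refine ⟨hX, ?_, ?_⟩
  · obtain ⟨V, hV, hVu⟩ := h.torus w hw hX
    obtain ⟨H, hH, hHt⟩ := ht 0 (Metric.mem_ball_self one_pos)
    have h1 : ∀ᶠ z in (𝒰 : Filter ℂ), H z - V (Clu_w (f z)) ∈ (Λ : Set (Cn (k + 1))) := by
      filter_upwards [hpd, hlim.eventually hVu, h0 hHt] with z h2 h3 h4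
      have h5 := h3 (Clu_w_ne _) (by rw [Clu_mk_w]; exact hfU z h2)
      rw [Clu_mk_w, ← htf z h2] at h5
      rw [h4] at h5
      have h6 : ((V (Clu_w (f z)) : Cn (k + 1)) : Cn (k + 1) ⧸ Λ) = (H z : Cn (k + 1) ⧸ Λ) := h5.symm
      rw [QuotientAddGroup.eq] at h6
      rw [SetLike.mem_coe]
      have h7 : H z - V (Clu_w (f z)) = -V (Clu_w (f z)) + H z := by abel
      rw [h7]
      exact h6
    have h2 : Tendsto (fun z => H z - V (Clu_w (f z))) 𝒰 (𝓝 (H 0 - V w)) := (hH.continuousAt.tendsto.mono_left h0).sub (hV.continuousAt.tendsto.comp hlim)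
    have h3 : H 0 - V w ∈ (Λ : Set (Cn (k + 1))) := (Pool.Agent.TG.lat_isClosed hΛ).mem_of_tendsto h2 h1
    have h4 : u (Projectivization.mk ℂ w hw) = (V w : Cn (k + 1) ⧸ Λ) := hVu.self_of_nhds hw hX
    rw [h4, hHt.self_of_nhds, QuotientAddGroup.eq]
    have h7 : -V w + H 0 = H 0 - V w := by abel
    rw [h7]
    exact h3
  · obtain ⟨D, γ, hγ, hγ0, hγv⟩ := h.regular _ hX
    obtain ⟨ψ, hψ, hψg⟩ := hg 0 (Metric.mem_ball_self one_pos)
    obtain ⟨hψ0, hψ1⟩ := hψg.self_of_nhds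
    -- nonvanishing of `vals γ`
    have hval : ∀ (y : Fin (N + 1) → ℂ) (hy : y ≠ 0), vals γ (Projectivization.mk ℂ y hy).rep ≠ 0 ↔ vals γ y ≠ 0 := by
      intro y hy
      obtain ⟨a, ha⟩ := Projectivization.exists_smul_eq_mk_rep ℂ y hy
      rw [← ha]
      have h1 : (a • y : Fin (N + 1) → ℂ) = (a : ℂ) • y := rfl
      rw [h1, Pool.Agent.H7.Bir.vals_smul hγ, Ne, smul_eq_zero, not_or]
      exact ⟨fun h => h.2, fun h => ⟨pow_ne_zero _ a.ne_zero, h⟩⟩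
    have hw1 : vals γ w ≠ 0 := (hval w hw).1 hγ0
    have hvc : Continuous (vals γ) := continuous_pi fun i => MvPolynomial.continuous_eval (γ i)
    have hvl : Tendsto (fun z => vals γ (Clu_w (f z))) 𝒰 (𝓝 (vals γ w)) := (hvc.tendsto w).comp hlim
    have hψl : Tendsto ψ 𝒰 (𝓝 (ψ 0)) := hψ.continuousAt.tendsto.mono_left h0
    have hcr : ∀ᶠ z in (𝒰 : Filter ℂ), ∀ i j, vals γ (Clu_w (f z)) i * ψ z j = vals γ (Clu_w (f z)) j * ψ z i := by
      filter_upwards [hpd, hvl.eventually_ne hw1, h0 hψg] with z h1 h2 h3 i j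
      obtain ⟨h4, h5⟩ := h3
      have h6 := hγv (f z) (hfU z h1) (by
        rw [← Clu_mk_w (f z)]
        exact (hval _ _).2 h2)
      rw [← hgf z h1, h5, ← Clu_mk_w (f z), Pool.Agent.H7.Bir.rmap_mk hγ (Clu_w_ne _) h2, Projectivization.mk_eq_mk_iff'] at h6
      obtain ⟨c, hc⟩ := h6
      have h7 : ∀ i, ψ z i = c * vals γ (Clu_w (f z)) i := fun i => by rw [← hc]; rfl
      rw [h7 i, h7 j]
      ring
    have hcr0 : ∀ i j, vals γ w i * ψ 0 j = vals γ w j * ψ 0 i := by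
      intro i j
      have h1 : Tendsto (fun z => vals γ (Clu_w (f z)) i * ψ z j) 𝒰 (𝓝 (vals γ w i * ψ 0 j)) :=
        (((continuous_apply i).tendsto _).comp hvl).mul (((continuous_apply j).tendsto _).comp hψl)
      have h2 : Tendsto (fun z => vals γ (Clu_w (f z)) j * ψ z i) 𝒰 (𝓝 (vals γ w j * ψ 0 i)) :=
        (((continuous_apply j).tendsto _).comp hvl).mul (((continuous_apply i).tendsto _).comp hψl)
      exact tendsto_nhds_unique h1 (h2.congr' (hcr.mono fun z hz => (hz i j).symm))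
    obtain ⟨j, hj⟩ : ∃ j, ψ 0 j ≠ 0 := by
      by_contra hcon
      push Not at hcon
      exact hψ0 (funext hcon)
    have h1 := Clu_prop hj hcr0
    rw [hγv _ hX hγ0, Pool.Agent.H7.Bir.rmap_mk hγ hw hw1, hψ1, Projectivization.mk_eq_mk_iff']
    exact ⟨_, h1.symm⟩

theorem ext_of_finite {P : Ideal (MvPolynomial (Fin (N + 1)) ℂ)} (hP : Homog P) {s m : ℕ} {G : Fin s → MvPolynomial (Fin (N + 1)) ℂ} (hΛ : Lat Λ) {T : Set ((Cn (k + 1) ⧸ Λ) × PN m)} {S : Set (Cn (k + 1) ⧸ Λ)}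
    {u : PN N → Cn (k + 1) ⧸ Λ} {v : PN N → PN m} (h : IsFiniteOver P G Λ T S u v)
    {f : ℂ → PN N} (hf : HolomorphicInto f puncturedDisc) (hfU : ∀ z ∈ puncturedDisc, f z ∈ projVar P) {t' : ℂ → Cn (k + 1) ⧸ Λ} {g' : ℂ → PN m} (ht : HolomorphicIntoTorus Λ t' (ball 0 1))
    (hg : HolomorphicInto g' (ball 0 1)) (htf : ∀ z ∈ puncturedDisc, t' z = u (f z)) (hgf : ∀ z ∈ puncturedDisc, g' z = v (f z)) :
    ∃ f' : ℂ → PN N, HolomorphicInto f' (ball 0 1) ∧ ∀ z ∈ puncturedDisc, f' z = f z := by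
  classical
  have hsph : ∀ 𝒰 : Ultrafilter ℂ, ∃ w : Fin (N + 1) → ℂ, ‖w‖ = 1 ∧ Tendsto (fun z => Clu_w (f z)) 𝒰 (𝓝 w) := by
    intro 𝒰
    have h1 := (isCompact_sphere (0 : Fin (N + 1) → ℂ) 1).ultrafilter_le_nhds (𝒰.map fun z => Clu_w (f z)) (by
      rw [le_principal_iff]
      refine Filter.mem_map.2 (Filter.Eventually.of_forall fun z => ?_)
      show Clu_w (f z) ∈ sphere (0 : Fin (N + 1) → ℂ) 1
      rw [mem_sphere_zero_iff_norm]
      exact Clu_w_norm _)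
    obtain ⟨w, hw, hlim⟩ := h1
    exact ⟨w, mem_sphere_zero_iff_norm.1 hw, hlim⟩
  have hne : ∀ w : Fin (N + 1) → ℂ, ‖w‖ = 1 → w ≠ 0 := by
    rintro w hw rfl
    rw [norm_zero] at hw
    exact zero_ne_one hw
  -- a first limit point
  set 𝒰₀ : Ultrafilter ℂ := Ultrafilter.of (𝓝[≠] (0 : ℂ)) with h𝒰₀
  have hle₀ : (𝒰₀ : Filter ℂ) ≤ 𝓝[≠] 0 := Ultrafilter.of_le _
  obtain ⟨a, ha1, halim⟩ := hsph 𝒰₀
  have ha : a ≠ 0 := hne a ha1
  obtain ⟨haX, hau, hav⟩ := Clu_point hΛ h hfU ht hg htf hgf 𝒰₀ hle₀ ha halim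
  have hfin := h.finite _ haX
  rw [hau, hav] at hfin
  obtain ⟨j, hj⟩ : ∃ j, a j ≠ 0 := by
    by_contra hcon
    push Not at hcon
    exact ha (funext hcon)
  -- the function `cr a`
  have hcont : ContinuousOn (fun z => Clu_cr a (Clu_w (f z))) puncturedDisc := by
    intro z₀ hz₀
    obtain ⟨φ, hφ, hφf⟩ := hf z₀ hz₀
    have h1 : φ z₀ ≠ 0 := hφf.self_of_nhds.1
    have h2 : ContinuousAt (fun z => ‖φ z‖⁻¹ * Clu_cr a (φ z)) z₀ :=
      (hφ.continuousAt.norm.inv₀ (norm_ne_zero_iff.2 h1)).mul ((Clu_cr_cont a).continuousAt.comp hφ.continuousAt)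
    refine (h2.congr ?_).continuousWithinAt
    filter_upwards [hφf] with z hz
    exact (Clu_cr_w a hz.1 hz.2).symm
  have hall : ∀ 𝒰 : Ultrafilter ℂ, (𝒰 : Filter ℂ) ≤ 𝓝[≠] 0 → ∃ t ∈ (fun x : PN N => Clu_cr a (Clu_w x)) '' {x' | x' ∈ projVar P ∧ u x' = t' 0 ∧ v x' = g' 0}, Tendsto (fun z => Clu_cr a (Clu_w (f z))) 𝒰 (𝓝 t) := by
    intro 𝒰 h𝒰
    obtain ⟨w, hw1, hlim⟩ := hsph 𝒰
    refine ⟨_, ⟨Projectivization.mk ℂ w (hne w hw1), Clu_point hΛ h hfU ht hg htf hgf 𝒰 h𝒰 (hne w hw1) hlim, rfl⟩, ?_⟩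
    show Tendsto _ _ (𝓝 (Clu_cr a (Clu_w (Projectivization.mk ℂ w (hne w hw1)))))
    rw [Clu_cr_w a (hne w hw1) rfl, hw1, inv_one, one_mul]
    exact ((Clu_cr_cont a).tendsto w).comp hlim
  have hlim0 : Tendsto (fun z => Clu_cr a (Clu_w (f z))) (𝓝[≠] 0) (𝓝 0) := by
    refine Clu_lim hcont (hfin.image _) hall 𝒰₀ hle₀ ?_
    have h1 := ((Clu_cr_cont a).tendsto a).comp halim
    rw [Clu_cr_self] at h1
    exact h1
  -- the coordinates in the chart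
  have hch : Tendsto (fun z => (Clu_w (f z) j)⁻¹ • Clu_w (f z)) (𝓝[≠] (0 : ℂ)) (𝓝 ((a j)⁻¹ • a)) := by
    rw [tendsto_iff_ultrafilter]
    intro 𝒰 h𝒰
    obtain ⟨w, hw1, hlim⟩ := hsph 𝒰
    have h1 : Clu_cr a w = 0 := tendsto_nhds_unique (((Clu_cr_cont a).tendsto w).comp hlim) (hlim0.mono_left h𝒰)
    have h2 := Clu_cr_zero hj h1
    have h3 : w j ≠ 0 := by
      intro h4
      rw [h4, zero_div, zero_smul] at h2
      exact hne w hw1 h2
    have h4 : (w j)⁻¹ • w = (a j)⁻¹ • a := by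
      conv_lhs => rw [h2]
      rw [Pi.smul_apply, smul_eq_mul, div_mul_cancel₀ _ hj, smul_smul]
      congr 1
      field_simp
    rw [← h4]
    exact ((((continuous_apply j).tendsto _).comp hlim).inv₀ h3).smul hlim
  have hjne : ∀ᶠ z in 𝓝[≠] (0 : ℂ), Clu_w (f z) j ≠ 0 := by
    have h1 : Tendsto (fun z => ((Clu_w (f z) j)⁻¹ • Clu_w (f z)) j) (𝓝[≠] (0 : ℂ)) (𝓝 (((a j)⁻¹ • a) j)) := ((continuous_apply j).tendsto _).comp hch
    have h2 : ((a j)⁻¹ • a) j ≠ 0 := by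
      rw [Pi.smul_apply, smul_eq_mul, inv_mul_cancel₀ hj]
      exact one_ne_zero
    filter_upwards [h1.eventually_ne h2] with z hz h3
    rw [Pi.smul_apply, h3, inv_zero, zero_smul] at hz
    exact hz rfl
  refine Pool.Agent.H62.Qe.extend_of_pow hf le_rfl (Φ := Function.update (fun z => (Clu_w (f z) j)⁻¹ • Clu_w (f z)) 0 ((a j)⁻¹ • a)) ?_ ?_ ?_
  · rw [continuousAt_update_same]
    exact hch
  · rw [Function.update_self]
    exact smul_ne_zero (inv_ne_zero hj) ha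
  · rw [eventually_nhdsWithin_iff] at hjne
    filter_upwards [hjne] with z h1 h2
    have h3 : (Clu_w (f z) j)⁻¹ • Clu_w (f z) ≠ 0 := smul_ne_zero (inv_ne_zero (h1 h2)) (Clu_w_ne _)
    have h4 : Function.update (fun z => (Clu_w (f z) j)⁻¹ • Clu_w (f z)) 0 ((a j)⁻¹ • a) z = (Clu_w (f z) j)⁻¹ • Clu_w (f z) := Function.update_of_ne h2 _ _
    refine ⟨by rw [h4]; exact h3, ?_⟩
    rw [pow_one]
    conv_lhs => rw [← Clu_mk_w (f z)]
    rw [Projectivization.mk_eq_mk_iff']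
    refine ⟨Clu_w (f z) j, ?_⟩
    rw [h4, smul_smul, mul_inv_cancel₀ (h1 h2), one_smul]

end Pool.Agent.PX
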