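import Pool.Agent.PX.F.FInt
import Pool.Agent.PX.Defs
import Pool.Agent.G4.Simp
import Pool.Agent.G4.V.Defs
import Pool.Agent.H17EF.MainE

/-!
# PX F Comp: the curves in `T` defined by a curve in a variety over it

`u ∘ f` and `v ∘ f` are holomorphic (`IsFiniteOver.torus`, `regular`: near `z₀` the curve `f` has homogeneous coordinates `φ`, `vals γ (φ z) ≠ 0` and `v (f z) = mk (vals γ (φ z))`).
-/

set_option autoImplicit false

open Topology Filter Metric MvPolynomial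

namespace Pool.Agent.PX

open Pool.Agent.H17 (PN VanishesAt HolomorphicInto puncturedDisc ZariskiClosedIn)
open Pool.Agent.H17LG.Variety (FunField IsLogGeneralType)
open Pool.Agent.H62.FC (Homog)
open Pool.Agent.H62.SA (locVar OnBd)
open Pool.Agent.H17EF (projVar)
open Pool.Agent.H36.BP (EN fs wd)
open Pool.Agent.H62.EF (MN pr)
open Pool.Agent.AD (Vd IsHolomorphicTorusMap)
open Pool.Agent.TG (Lat Gd)
open Pool.Agent.G3 (wt TT LLift)
open Pool.Agent.G4 (Few Simp)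
open Pool.Agent.PXF (Cn form IsSimple IsThetaForm IsReduced HasNoLines ThreePoints Avoids HolomorphicIntoTorus IsCurve IsCurveIn IsHyperbolicModulo IsFiniteOver complement fewPoints KobayashiPositive)
open Pool.Agent.G4F (GGLCOpen)

variable {N k d r : ℕ} {Λ : AddSubgroup (Vd (k + 1))} {D : Set (Vd (k + 1))} {Bad : Vd (k + 1) → Set (Vd (k + 1))} {θ : Fin (d + 1) → Vd (k + 1) → ℂ}
  {W : Fin r → Vd (k + 1) →L[ℂ] ℂ}


theorem curve_of {P : Ideal (MvPolynomial (Fin (N + 1)) ℂ)} {s m : ℕ} {G : Fin s → MvPolynomial (Fin (N + 1)) ℂ} {T : Set ((Cn (k + 1) ⧸ Λ) × PN m)} {S : Set (Cn (k + 1) ⧸ Λ)}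
    {u : PN N → Cn (k + 1) ⧸ Λ} {v : PN N → PN m} (h : IsFiniteOver P G Λ T S u v)
    {f : ℂ → PN N} {U : Set ℂ} (hf : HolomorphicInto f U) (hU : IsOpen U) (hfU : ∀ z ∈ U, f z ∈ locVar P G) : IsCurveIn Λ T (fun z => u (f z)) (fun z => v (f z)) U := by
  have hX : ∀ z ∈ U, f z ∈ projVar P := fun z hz => (hfU z hz).1
  refine ⟨?_, ?_, fun z hz => h.maps _ (hfU z hz)⟩
  · intro z₀ hz₀
    obtain ⟨φ, hφ, he⟩ := hf z₀ hz₀
    obtain ⟨h0, h1⟩ := he.self_of_nhds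
    obtain ⟨w, hw, hwe⟩ := h.torus (φ z₀) h0 (by rw [← h1]; exact hX z₀ hz₀)
    refine ⟨fun z => w (φ z), hw.comp hφ, ?_⟩
    filter_upwards [he, hφ.continuousAt.eventually hwe, hU.mem_nhds hz₀] with z h2 h3 h4
    obtain ⟨h5, h6⟩ := h2
    have h7 := h3 h5 (by rw [← h6]; exact hX z h4)
    rw [← h6] at h7
    exact h7
  · intro z₀ hz₀
    obtain ⟨φ, hφ, he⟩ := hf z₀ hz₀
    obtain ⟨D₀, γ, hγ, h0, h1⟩ := h.regular (f z₀) (hX z₀ hz₀)
    have hrep : ∀ z, (∃ h : φ z ≠ 0, f z = Projectivization.mk ℂ (φ z) h) → ∃ c : ℂ, c ≠ 0 ∧ (f z).rep = c • φ z := by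
      rintro z ⟨h2, h3⟩
      obtain ⟨a, ha⟩ := Projectivization.exists_smul_eq_mk_rep ℂ (φ z) h2
      exact ⟨a, a.ne_zero, by rw [h3]; exact ha.symm⟩
    have hvals : ∀ z, (∃ h : φ z ≠ 0, f z = Projectivization.mk ℂ (φ z) h) →
        (Pool.Agent.H7.Bir.vals γ (f z).rep ≠ 0 ↔ Pool.Agent.H7.Bir.vals γ (φ z) ≠ 0) := by
      intro z hz
      obtain ⟨c, hc, h2⟩ := hrep z hz
      rw [h2, Pool.Agent.H7.Bir.vals_smul hγ, smul_ne_zero_iff]
      exact ⟨fun h => h.2, fun h => ⟨pow_ne_zero _ hc, h⟩⟩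
    have hΨ : AnalyticAt ℂ (fun z => Pool.Agent.H7.Bir.vals γ (φ z)) z₀ := by
      rw [analyticAt_pi_iff]
      intro i
      have h2 : AnalyticAt ℂ (fun z => MvPolynomial.aeval (φ z) (γ i)) z₀ :=
        AnalyticAt.aeval_mvPolynomial (fun i => analyticAt_pi_iff.mp hφ i) (γ i)
      exact h2
    refine ⟨fun z => Pool.Agent.H7.Bir.vals γ (φ z), hΨ, ?_⟩
    have h2 : Pool.Agent.H7.Bir.vals γ (φ z₀) ≠ 0 := (hvals z₀ he.self_of_nhds).1 h0
    filter_upwards [he, hΨ.continuousAt.eventually_ne h2, hU.mem_nhds hz₀] with z h3 h4 h5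
    refine ⟨h4, ?_⟩
    have h6 := h1 (f z) (hX z h5) ((hvals z h3).2 h4)
    obtain ⟨h7, h8⟩ := h3
    rw [h8, Pool.Agent.H7.Bir.rmap_mk hγ h7 h4, ← h8] at h6
    exact h6

end Pool.Agent.PX
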