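import Pool.Agent.PX.F.Crv
import Pool.Agent.PX.BD
import Pool.Agent.G4.V.Defs
import Pool.Agent.G4.Simp

/-!
# PX F Dsc: discs

`torus_disc` (the given `h` differs from the lift near `0` by an element of `Λ`, so the derivatives at `0` agree), `lift_disc` on the disc of radius `1 / 2` (rescaled to the unit disc: `Cp.comp`), `BD.bound`; constant `2 C`.
-/

set_option autoImplicit false

open Topology Filter Metric MvPolynomial

namespace Pool.Agent.PX

open Pool.Agent.H17 (PN VanishesAt HolomorphicInto puncturedDisc ZariskiClosedIn)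
open Pool.Agent.H17LG.Variety (FunField IsLogGeneralType)
open Pool.Agent.H62.FC (Homog)
open Pool.Agent.H62.SA (locVar OnBd)
open Pool.Agent.H17EF (projVar)
open Pool.Agent.H36.BP (EN fs wd)
open Pool.Agent.H62.EF (MN pr)
open Pool.Agent.AD (Vd IsHolomorphicTorusMap)
open Pool.Agent.TG (Lat Gd)
open Pool.Agent.G3 (wt TT LLift)
open Pool.Agent.G4 (Few Simp)
open Pool.Agent.PXF (Cn form IsSimple IsThetaForm IsReduced HasNoLines ThreePoints Avoids HolomorphicIntoTorus IsCurve IsCurveIn IsHyperbolicModulo IsFiniteOver complement fewPoints KobayashiPositive)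
open Pool.Agent.G4F (GGLCOpen)

variable {N k d r : ℕ} {Λ : AddSubgroup (Vd (k + 1))} {D : Set (Vd (k + 1))} {Bad : Vd (k + 1) → Set (Vd (k + 1))} {θ : Fin (d + 1) → Vd (k + 1) → ℂ}
  {W : Fin r → Vd (k + 1) →L[ℂ] ℂ}


theorem BD.discs (B : BD Λ θ) : ∃ C : ℝ, ∀ (h : ℂ → Cn (k + 1)) (g : ℂ → PN 1), IsCurve Λ θ (fun z => (h z : Cn (k + 1) ⧸ Λ)) g (ball 0 1) → AnalyticAt ℂ h 0 → ‖deriv h 0‖ ≤ C := by
  obtain ⟨C, hC, hb⟩ := B.bound
  refine ⟨2 * C, fun h g hc han => ?_⟩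
  obtain ⟨h1, hd, he⟩ := torus_disc B.lat hc.torus
  have h0 : (0 : ℂ) ∈ ball (0 : ℂ) 1 := mem_ball_self one_pos
  have hmem : ∀ z ∈ ball (0 : ℂ) 1, h z - h1 z ∈ Λ := by
    intro z hz
    have h2 := he z hz
    rw [eq_comm, QuotientAddGroup.eq, neg_add_eq_sub] at h2
    exact h2
  obtain ⟨δ, hδ, hdisc⟩ := B.lat.disc
  have hd1 : DifferentiableAt ℂ h1 0 := (hd 0 h0).differentiableAt (isOpen_ball.mem_nhds h0)
  have hev : h =ᶠ[𝓝 0] fun z => h1 z + (h 0 - h1 0) := by
    have hcont : ContinuousAt (fun z => h z - h1 z - (h 0 - h1 0)) 0 := (han.continuousAt.sub hd1.continuousAt).sub continuousAt_const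
    have h3 : ∀ᶠ z in 𝓝 (0 : ℂ), ‖h z - h1 z - (h 0 - h1 0)‖ < δ := by
      have h4 := hcont.norm.tendsto
      simp only [sub_self, norm_zero] at h4
      exact h4.eventually (gt_mem_nhds hδ)
    filter_upwards [h3, isOpen_ball.mem_nhds h0] with z hz hz1
    have h5 := hdisc _ (Λ.sub_mem (hmem z hz1) (hmem 0 h0)) hz
    rw [sub_eq_zero] at h5
    rw [← h5]
    abel
  have hder : deriv h 0 = deriv h1 0 := by
    rw [hev.deriv_eq, deriv_add_const]
  obtain ⟨w, hw, -⟩ := lift_disc (Λ := Λ) (θ := θ) hd hc.line (fun z hz => by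
    rw [← he z hz]
    exact hc.avoids z hz) (r := 1 / 2) (by norm_num)
  have hφ : Set.MapsTo (fun z : ℂ => z / 2) (ball 0 1) (ball 0 (1 / 2)) := by
    intro z hz
    rw [mem_ball_zero_iff] at hz ⊢
    rw [norm_div]
    have : ‖(2 : ℂ)‖ = 2 := by norm_num
    rw [this]
    linarith
  have h6 := hb _ _ (hw.comp (φ := fun z : ℂ => z / 2) (differentiable_id.div_const 2).differentiableOn hφ)
  have h7 : deriv (fun z : ℂ => h1 (z / 2)) 0 = (2 : ℂ)⁻¹ • deriv h1 0 := by
    have h8 : HasDerivAt (fun z : ℂ => z / 2) ((1 : ℂ) / 2) 0 := (hasDerivAt_id (0 : ℂ)).div_const 2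
    have h9 : HasDerivAt h1 (deriv h1 0) ((0 : ℂ) / 2) := by
      rw [zero_div]
      exact hd1.hasDerivAt
    have h10 := h9.scomp (0 : ℂ) h8
    rw [one_div] at h10
    exact h10.deriv
  rw [h7, norm_smul, norm_inv] at h6
  have h11 : ‖(2 : ℂ)‖ = 2 := by norm_num
  rw [h11] at h6
  rw [hder]
  linarith

end Pool.Agent.PX
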