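import Pool.Agent.PX.F.Crv
import Pool.Agent.PX.BD
import Pool.Agent.PX.FibC
import Pool.Agent.G4.V.Defs
import Pool.Agent.G4.Simp

/-!
# PX F Ent: entire curves

`torus_univ`, `lift_univ`; `BD.bound` for `z ↦ (w (z₀ + R z), h (z₀ + R z))` gives `R ‖h' z₀‖ ≤ C` for all `R`: `h' = 0`, `h` is constant; `fib_const` if the fibre contains three points.
-/

set_option autoImplicit false

open Topology Filter Metric MvPolynomial

namespace Pool.Agent.PX

open Pool.Agent.H17 (PN VanishesAt HolomorphicInto puncturedDisc ZariskiClosedIn)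
open Pool.Agent.H17LG.Variety (FunField IsLogGeneralType)
open Pool.Agent.H62.FC (Homog)
open Pool.Agent.H62.SA (locVar OnBd)
open Pool.Agent.H17EF (projVar)
open Pool.Agent.H36.BP (EN fs wd)
open Pool.Agent.H62.EF (MN pr)
open Pool.Agent.AD (Vd IsHolomorphicTorusMap)
open Pool.Agent.TG (Lat Gd)
open Pool.Agent.G3 (wt TT LLift)
open Pool.Agent.G4 (Few Simp)
open Pool.Agent.PXF (Cn form IsSimple IsThetaForm ThreePoints Avoids HolomorphicIntoTorus IsCurve)
open Pool.Agent.G4F (GGLCOpen)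

variable {N k d r : ℕ} {Λ : AddSubgroup (Vd (k + 1))} {D : Set (Vd (k + 1))} {Bad : Vd (k + 1) → Set (Vd (k + 1))} {θ : Fin (d + 1) → Vd (k + 1) → ℂ}
  {W : Fin r → Vd (k + 1) →L[ℂ] ℂ}


theorem BD.entire (B : BD Λ θ) (t : ℂ → Cn (k + 1) ⧸ Λ) (g : ℂ → PN 1) (hc : IsCurve Λ θ t g Set.univ) :
    ∃ y : Cn (k + 1), (∀ z, t z = (y : Cn (k + 1) ⧸ Λ)) ∧ (ThreePoints θ y → ∀ z w, g z = g w) := by
  obtain ⟨h, hh, ht⟩ := torus_univ B.lat hc.torus
  have ha : ∀ z, Avoids Λ θ (h z : Cn (k + 1) ⧸ Λ) (g z) := by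
    intro z
    rw [← ht z]
    exact hc.avoids z (Set.mem_univ z)
  obtain ⟨w, hw, hF⟩ := lift_univ hh hc.line ha
  obtain ⟨C, hC0, hC⟩ := B.bound
  have hd0 : ∀ z, deriv h z = 0 := by
    intro z
    have key : ∀ R : ℝ, 0 < R → R * ‖deriv h z‖ ≤ C := by
      intro R hR
      have hA : ∀ ζ : ℂ, HasDerivAt (fun ζ : ℂ => z + (R : ℂ) * ζ) (R : ℂ) ζ := by
        intro ζ
        simpa using ((hasDerivAt_id ζ).const_mul (R : ℂ)).const_add z
      have hAd : Differentiable ℂ (fun ζ : ℂ => z + (R : ℂ) * ζ) := fun ζ => (hA ζ).differentiableAt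
      have hcp : Cp θ (ball 0 1) (fun ζ => w (z + (R : ℂ) * ζ)) (fun ζ => h (z + (R : ℂ) * ζ)) :=
        ⟨(hw.comp hAd).differentiableOn, (hh.comp hAd).differentiableOn, fun ζ _ => (hF _).1⟩
      have h1 := hC _ _ hcp
      have h2 : HasDerivAt (fun ζ : ℂ => h (z + (R : ℂ) * ζ)) ((R : ℂ) • deriv h z) 0 := by
        have h3 : HasDerivAt h (deriv h z) (z + (R : ℂ) * 0) := by
          rw [mul_zero, add_zero]
          exact (hh z).hasDerivAt
        exact h3.scomp (0 : ℂ) (hA 0)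
      rw [h2.deriv, norm_smul, Complex.norm_real, Real.norm_eq_abs, abs_of_pos hR] at h1
      exact h1
    by_contra hne
    have hpos : 0 < ‖deriv h z‖ := norm_pos_iff.mpr hne
    have h1 := key ((C + 1) / ‖deriv h z‖) (by positivity)
    rw [div_mul_cancel₀ _ hpos.ne'] at h1
    linarith
  have hconst : ∀ z, h z = h 0 := fun z => is_const_of_deriv_eq_zero hh hd0 z 0
  refine ⟨h 0, fun z => ?_, fun h3 z w' => ?_⟩
  · rw [ht z, hconst z]
  · have hr : R3 θ (h 0) := (three_iff θ (h 0)).mp h3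
    obtain ⟨c, hcc⟩ := fib_const hr hw (fun x => by
      have h4 := (hF x).1
      rw [hconst x] at h4
      exact h4) z w'
    obtain ⟨hz, hgz⟩ := (hF z).2
    obtain ⟨hw', hgw⟩ := (hF w').2
    rw [hgz, hgw, Projectivization.mk_eq_mk_iff']
    exact ⟨c, by rw [hcc]; rfl⟩

end Pool.Agent.PX
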