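import Pool.Agent.PX.F.FDefs

/-!
# PX FInt: internal forms of the definitions, used in the proofs for theta forms
-/

set_option autoImplicit false

open Topology Filter MvPolynomial
open Pool.Agent.H17 (PN VanishesAt HolomorphicInto puncturedDisc)

noncomputable section

namespace Pool.Agent.PXF

variable {k d : ℕ}

/-- The point `(t, p)` of `A × ℙ¹` is not in `E`. -/
def Avoids (Λ : AddSubgroup (Cn (k + 1))) (θ : Fin (d + 1) → Cn (k + 1) → ℂ) (t : Cn (k + 1) ⧸ Λ) (p : PN 1) : Prop :=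
  ∀ y : Cn (k + 1), (y : Cn (k + 1) ⧸ Λ) = t → form θ y p.rep ≠ 0

/-- `(t, g)` is a holomorphic map from the open set `U` to the complement of `E` in `A × ℙ¹`. -/
structure IsCurve (Λ : AddSubgroup (Cn (k + 1))) (θ : Fin (d + 1) → Cn (k + 1) → ℂ) (t : ℂ → Cn (k + 1) ⧸ Λ) (g : ℂ → PN 1) (U : Set ℂ) : Prop where
  torus : HolomorphicIntoTorus Λ t U
  line : HolomorphicInto g U
  avoids : ∀ z ∈ U, Avoids Λ θ (t z) (g z)

theorem isCurve_iff {Λ : AddSubgroup (Cn (k + 1))} {θ : Fin (d + 1) → Cn (k + 1) → ℂ} {t : ℂ → Cn (k + 1) ⧸ Λ} {g : ℂ → PN 1} {U : Set ℂ} :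
    IsCurve Λ θ t g U ↔ IsCurveIn Λ (complement Λ θ) t g U :=
  ⟨fun h => ⟨h.torus, h.line, h.avoids⟩, fun h => ⟨h.torus, h.proj, h.mem⟩⟩

end Pool.Agent.PXF
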