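import Pool.Agent.PX.F.YG
import Pool.Agent.PX.V.Dom
import Pool.Agent.G4.V.Down

/-!
# PX F Ggl: the conjecture for the varieties which virtually dominate a variety over `T`
-/

set_option autoImplicit false

open Topology Filter Metric MvPolynomial

namespace Pool.Agent.PX

open Pool.Agent.H17 (PN VanishesAt HolomorphicInto puncturedDisc ZariskiClosedIn)
open Pool.Agent.H17LG.Variety (FunField IsLogGeneralType)
open Pool.Agent.H62.FC (Homog)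
open Pool.Agent.H62.SA (locVar OnBd)
open Pool.Agent.H17EF (projVar)
open Pool.Agent.H36.BP (EN fs wd)
open Pool.Agent.H62.EF (MN pr)
open Pool.Agent.AD (Vd IsHolomorphicTorusMap)
open Pool.Agent.TG (Lat Gd)
open Pool.Agent.G3 (wt TT LLift)
open Pool.Agent.G4 (Few Simp)
open Pool.Agent.PXF (Cn form IsSimple IsThetaForm IsReduced HasNoLines ThreePoints Avoids HolomorphicIntoTorus IsCurve IsCurveIn IsHyperbolicModulo IsFiniteOver complement fewPoints KobayashiPositive)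
open Pool.Agent.G4F (GGLCOpen)

variable {N k d r : ℕ} {Λ : AddSubgroup (Vd (k + 1))} {D : Set (Vd (k + 1))} {Bad : Vd (k + 1) → Set (Vd (k + 1))} {θ : Fin (d + 1) → Vd (k + 1) → ℂ}
  {W : Fin r → Vd (k + 1) →L[ℂ] ℂ}


open Pool.Agent.H7.Qup (IsDominantMap)
open Pool.Agent.H62.Qe (IsEtaleOver)

theorem ggl_of (hΛ : Lat Λ) {m c : ℕ} {T : Set ((Cn (k + 1) ⧸ Λ) × PN m)} {S : Set (Cn (k + 1) ⧸ Λ)} (H : IsHyperbolicModulo Λ T S)
    {N s : ℕ} (P : Ideal (MvPolynomial (Fin (N + 1)) ℂ)) [P.IsPrime] (G : Fin s → MvPolynomial (Fin (N + 1)) ℂ)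
    (u : PN N → Cn (k + 1) ⧸ Λ) (v : PN N → PN m) (hP : Homog P) (hG : ∀ m, ∃ n, (G m).IsHomogeneous n) (hne : (locVar P G).Nonempty)
    (hdim : ∃ z : Fin (c + 1) → FunField P, IsTranscendenceBasis ℂ z) (hU : IsFiniteOver P G Λ T S u v) (hgt : IsLogGeneralType (K := FunField P) (k := c + 1) (OnBd P G)) :
    (∃ Ξ : Set (PN N), GGLCOpen P G Ξ) ∧
    ∀ (M s' : ℕ) (P' : Ideal (MvPolynomial (Fin (M + 1)) ℂ)) [P'.IsPrime] (G' : Fin s' → MvPolynomial (Fin (M + 1)) ℂ) (p : PN M → PN N), Homog P' → (∀ m, ∃ n, (G' m).IsHomogeneous n) →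
      (∃ z : Fin (c + 1) → FunField P', IsTranscendenceBasis ℂ z) → IsDominantMap P P' G G' p →
      (∃ Ξ : Set (PN M), GGLCOpen P' G' Ξ) ∧
      ∀ (L s'' : ℕ) (P'' : Ideal (MvPolynomial (Fin (L + 1)) ℂ)) [P''.IsPrime] (G'' : Fin s'' → MvPolynomial (Fin (L + 1)) ℂ) (q : PN M → PN L), Homog P'' → (∀ m, ∃ n, (G'' m).IsHomogeneous n) →
        (locVar P'' G'').Nonempty → (∃ z : Fin (c + 1) → FunField P'', IsTranscendenceBasis ℂ z) → IsEtaleOver P'' P' G'' G' q → IsLogGeneralType (K := FunField P'') (k := c + 1) (OnBd P'' G'') →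
        ∃ Ξ : Set (PN L), GGLCOpen P'' G'' Ξ := by
  obtain ⟨Ξ, hΞ⟩ := y_gglo hΛ hP hG hne hdim H hU hgt
  refine ⟨⟨Ξ, hΞ⟩, fun M s' P' _ G' p hP' hG' hz' hp => ?_⟩
  obtain ⟨Ξ', hΞ'⟩ := PXF.gglo_dominant hP hP' hdim hz' hG hG' hp hΞ
  exact ⟨⟨Ξ', hΞ'⟩, fun L s'' P'' _ G'' q hP'' hG'' hne'' hz'' hq hgt'' => GGLCOpen.down hP'' hP' hG'' hz'' hz' hq hne'' hgt'' hΞ'⟩

end Pool.Agent.PX
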