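import Pool.Agent.PX.F.Dsc
import Pool.Agent.PX.Kob
import Pool.Agent.G4.V.Defs
import Pool.Agent.G4.Simp

/-!
# PX F KobF: the Kobayashi metric

`torus_disc`, `lift_disc` on the disc of radius `3 / 4`; `h` normalised so that `h 0 = y'`; `‖h'‖ ≤ H` on the disc of radius `1 / 2` by `BD.bound` for the discs of radius `1 / 4` around the points (`BD.discs` or directly); `kob`.  `fs (w 0) (w' 0) = ‖dt (w 0) (w' 0)‖ / ‖w 0‖ ^ 2`, the same for the lift `φ`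
(`φ = c w`, `c` analytic without zeros near `0`).
-/

set_option autoImplicit false

open Topology Filter Metric MvPolynomial

namespace Pool.Agent.PX

open Pool.Agent.H17 (PN VanishesAt HolomorphicInto puncturedDisc ZariskiClosedIn)
open Pool.Agent.H17LG.Variety (FunField IsLogGeneralType)
open Pool.Agent.H62.FC (Homog)
open Pool.Agent.H62.SA (locVar OnBd)
open Pool.Agent.H17EF (projVar)
open Pool.Agent.H36.BP (EN fs wd)
open Pool.Agent.H62.EF (MN pr)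
open Pool.Agent.AD (Vd IsHolomorphicTorusMap)
open Pool.Agent.TG (Lat Gd)
open Pool.Agent.G3 (wt TT LLift)
open Pool.Agent.G4 (Few Simp)
open Pool.Agent.PXF (Cn form IsSimple IsThetaForm IsReduced HasNoLines ThreePoints Avoids HolomorphicIntoTorus IsCurve IsCurveIn IsHyperbolicModulo IsFiniteOver complement fewPoints KobayashiPositive)
open Pool.Agent.G4F (GGLCOpen)

variable {N k d r : ℕ} {Λ : AddSubgroup (Vd (k + 1))} {D : Set (Vd (k + 1))} {Bad : Vd (k + 1) → Set (Vd (k + 1))} {θ : Fin (d + 1) → Vd (k + 1) → ℂ}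
  {W : Fin r → Vd (k + 1) →L[ℂ] ℂ}

/-- the Lagrange identity -/
private theorem kf_wd (x v : EN 1) : wd x v = ‖dt x v‖ := by
  unfold wd dt
  rw [← Real.sqrt_sq (norm_nonneg (x 0 * v 1 - x 1 * v 0))]
  congr 1
  have e1 : ‖x‖ ^ 2 = ‖x 0‖ ^ 2 + ‖x 1‖ ^ 2 := by
    rw [EuclideanSpace.norm_sq_eq]; simp [Fin.sum_univ_two]
  have e2 : ‖v‖ ^ 2 = ‖v 0‖ ^ 2 + ‖v 1‖ ^ 2 := by
    rw [EuclideanSpace.norm_sq_eq]; simp [Fin.sum_univ_two]
  have e3 : inner ℂ x v = v 0 * (starRingEnd ℂ) (x 0) + v 1 * (starRingEnd ℂ) (x 1) := by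
    rw [PiLp.inner_apply]; simp [Fin.sum_univ_two]
  rw [e1, e2, e3]
  simp only [← Complex.normSq_eq_norm_sq, Complex.normSq_apply, Complex.add_re, Complex.add_im, Complex.sub_re, Complex.sub_im, Complex.mul_re, Complex.mul_im, Complex.conj_re, Complex.conj_im]
  ring

private theorem kf_fs (x v : EN 1) : fs x v = ‖x 0 * v 1 - x 1 * v 0‖ / (‖x 0‖ ^ 2 + ‖x 1‖ ^ 2) := by
  unfold fs
  rw [kf_wd]
  have e1 : ‖x‖ ^ 2 = ‖x 0‖ ^ 2 + ‖x 1‖ ^ 2 := by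
    rw [EuclideanSpace.norm_sq_eq]; simp [Fin.sum_univ_two]
  rw [e1, dt]

/-- two lifts of the same map have the same Fubini-Study derivative -/
private theorem kf_lift {φ : ℂ → Cn 2} {w : ℂ → EN 1} {g : ℂ → PN 1} (hφ : AnalyticAt ℂ φ 0) (hw : DifferentiableAt ℂ w 0)
    (h1 : ∀ᶠ z in 𝓝 (0 : ℂ), ∃ h : φ z ≠ 0, g z = Projectivization.mk ℂ (φ z) h)
    (h2 : ∀ᶠ z in 𝓝 (0 : ℂ), ∃ h : (w z).ofLp ≠ 0, g z = Projectivization.mk ℂ (w z).ofLp h) :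
    ‖φ 0 0 * deriv φ 0 1 - φ 0 1 * deriv φ 0 0‖ = fs (w 0) (deriv w 0) * (‖φ 0 0‖ ^ 2 + ‖φ 0 1‖ ^ 2) := by
  have hw0 : ∀ i, HasDerivAt (fun z => w z i) (deriv w 0 i) 0 := by
    intro i
    have := (EuclideanSpace.proj (𝕜 := ℂ) i : EN 1 →L[ℂ] ℂ).hasFDerivAt.comp_hasDerivAt (0 : ℂ) hw.hasDerivAt
    exact this
  have hφ0 : ∀ i, HasDerivAt (fun z => φ z i) (deriv φ 0 i) 0 := by
    intro i
    exact (hasDerivAt_pi.1 hφ.differentiableAt.hasDerivAt) i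
  -- proportionality near `0`
  have hp : ∀ᶠ z in 𝓝 (0 : ℂ), φ z 0 * w z 1 = φ z 1 * w z 0 := by
    filter_upwards [h1, h2] with z ⟨ha, hb⟩ ⟨hc, hd'⟩
    have := hb.symm.trans hd'
    rw [Projectivization.mk_eq_mk_iff'] at this
    obtain ⟨a, ha'⟩ := this
    rw [← ha']
    simp only [Pi.smul_apply, smul_eq_mul]
    ring
  obtain ⟨hn1, hb⟩ := h1.self_of_nhds
  obtain ⟨hn2, hd'⟩ := h2.self_of_nhds
  obtain ⟨a, ha⟩ := (Projectivization.mk_eq_mk_iff' ℂ _ _ hn1 hn2).1 (hb.symm.trans hd')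
  have ha0 : a ≠ 0 := by
    rintro rfl
    exact hn1 (by rw [← ha, zero_smul])
  -- differentiate the proportionality
  have hder : deriv φ 0 0 * w 0 1 + φ 0 0 * deriv w 0 1 = deriv φ 0 1 * w 0 0 + φ 0 1 * deriv w 0 0 := by
    have e1 := (hφ0 0).mul (hw0 1)
    have e2 := (hφ0 1).mul (hw0 0)
    have e3 : (fun z => φ z 0 * w z 1) =ᶠ[𝓝 0] (fun z => φ z 1 * w z 0) := hp
    exact (e1.congr_of_eventuallyEq e3.symm).unique e2
  have hc0 : φ 0 0 = a * w 0 0 := by rw [← ha]; simp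
  have hc1 : φ 0 1 = a * w 0 1 := by rw [← ha]; simp
  have hnw : (‖w 0 0‖ ^ 2 + ‖w 0 1‖ ^ 2) ≠ 0 := by
    intro h0
    have h00 : ‖w 0 0‖ ^ 2 = 0 := by nlinarith [sq_nonneg ‖w 0 0‖, sq_nonneg ‖w 0 1‖]
    have h01 : ‖w 0 1‖ ^ 2 = 0 := by nlinarith [sq_nonneg ‖w 0 0‖, sq_nonneg ‖w 0 1‖]
    apply hn2
    ext i
    fin_cases i
    · simpa using h00
    · simpa using h01
  rw [kf_fs]
  have key : φ 0 0 * deriv φ 0 1 - φ 0 1 * deriv φ 0 0 = a ^ 2 * (w 0 0 * deriv w 0 1 - w 0 1 * deriv w 0 0) := by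
    rw [hc0, hc1] at hder ⊢
    linear_combination (-a) * hder
  rw [key, norm_mul, norm_pow, hc0, hc1, norm_mul, norm_mul]
  field_simp

theorem BD.kobayashi (B : BD Λ θ) (y : Cn (k + 1)) (h3 : ThreePoints θ y) (h0 : ∃ i, θ i y ≠ 0) : ∃ C : ℝ, ∀ᶠ y' in 𝓝 y, ∀ (t : ℂ → Cn (k + 1) ⧸ Λ) (g : ℂ → PN 1) (φ : ℂ → Cn 2),
    IsCurve Λ θ t g (ball 0 1) → t 0 = (y' : Cn (k + 1) ⧸ Λ) → AnalyticAt ℂ φ 0 → (∀ᶠ z in 𝓝 (0 : ℂ), ∃ h : φ z ≠ 0, g z = Projectivization.mk ℂ (φ z) h) →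
    ‖φ 0 0 * deriv φ 0 1 - φ 0 1 * deriv φ 0 0‖ ≤ C * (‖φ 0 0‖ ^ 2 + ‖φ 0 1‖ ^ 2) := by
  obtain ⟨C₀, hC₀, hb⟩ := B.bound
  have hR3 : R3 θ y := (three_iff θ y).1 h3
  obtain ⟨C, hC⟩ := kob B.an hR3 h0 (4 * C₀)
  refine ⟨C, ?_⟩
  rw [QuotientAddGroup.nhds_eq, eventually_map]
  filter_upwards [hC] with y' hy' t g φ hcu ht0 hφ hgφ
  obtain ⟨h, hh, hth⟩ := torus_disc B.lat hcu.torus
  have h00 : (0 : ℂ) ∈ ball (0 : ℂ) 1 := by simp
  -- normalise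
  have hl : (h 0 : Cn (k + 1) ⧸ Λ) = (y' : Cn (k + 1) ⧸ Λ) := (hth 0 h00).symm.trans ht0
  have hl' : y' - h 0 ∈ Λ := by
    rw [QuotientAddGroup.eq] at hl
    rwa [sub_eq_neg_add]
  set h₁ : ℂ → Vd (k + 1) := fun z => h z + (y' - h 0) with hh₁
  have hd₁ : DifferentiableOn ℂ h₁ (ball 0 1) := hh.add_const _
  have ht₁ : ∀ z ∈ ball (0 : ℂ) 1, t z = (h₁ z : Cn (k + 1) ⧸ Λ) := by
    intro z hz
    rw [hth z hz, QuotientAddGroup.eq]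
    simpa [hh₁] using hl'
  have ha₁ : ∀ z ∈ ball (0 : ℂ) 1, Avoids Λ θ (h₁ z : Cn (k + 1) ⧸ Λ) (g z) := by
    intro z hz
    rw [← ht₁ z hz]
    exact hcu.avoids z hz
  obtain ⟨w, hw, hgw⟩ := lift_disc hd₁ hcu.line ha₁ (show (3 / 4 : ℝ) < 1 by norm_num)
  have h10 : h₁ 0 = y' := by simp [hh₁]
  -- the bound for the derivative of `h₁`
  have hbd : ∀ z ∈ ball (0 : ℂ) (1 / 2), ‖deriv h₁ z‖ ≤ 4 * C₀ := by
    intro z hz
    have hm : Set.MapsTo (fun ζ : ℂ => z + ζ / 4) (ball 0 1) (ball 0 (3 / 4)) := by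
      intro ζ hζ
      rw [mem_ball_zero_iff] at hζ hz ⊢
      calc ‖z + ζ / 4‖ ≤ ‖z‖ + ‖ζ / 4‖ := norm_add_le _ _
        _ = ‖z‖ + ‖ζ‖ / 4 := by rw [norm_div]; norm_num
        _ < 3 / 4 := by linarith
    have hc := hw.comp (φ := fun ζ : ℂ => z + ζ / 4) (V := ball 0 1) (by fun_prop) hm
    have h2 := hb _ _ hc
    have hz1 : z ∈ ball (0 : ℂ) 1 := ball_subset_ball (by norm_num) hz
    have hdz : HasDerivAt h₁ (deriv h₁ z) z := (hd₁.differentiableAt (isOpen_ball.mem_nhds hz1)).hasDerivAt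
    have hi : HasDerivAt (fun ζ : ℂ => z + ζ / 4) (1 / 4) 0 := by
      have := ((hasDerivAt_id (0 : ℂ)).div_const 4).const_add z
      simpa using this
    have hdz' : HasDerivAt h₁ (deriv h₁ z) (z + (0 : ℂ) / 4) := by simpa using hdz
    have h3' : HasDerivAt (fun ζ : ℂ => h₁ (z + ζ / 4)) ((1 / 4 : ℂ) • deriv h₁ z) 0 :=
      HasDerivAt.scomp (h := fun ζ : ℂ => z + ζ / 4) (g₁ := h₁) (0 : ℂ) hdz' hi
    rw [h3'.deriv, norm_smul] at h2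
    have h4 : ‖(1 / 4 : ℂ)‖ = 1 / 4 := by norm_num
    rw [h4] at h2
    linarith
  have hk := hy' w h₁ (hw.mono (ball_subset_ball (by norm_num))) hbd h10
  have hw0 : DifferentiableAt ℂ w 0 := hw.w_diff.differentiableAt (isOpen_ball.mem_nhds (by simp))
  have h2 : ∀ᶠ z in 𝓝 (0 : ℂ), ∃ h : (w z).ofLp ≠ 0, g z = Projectivization.mk ℂ (w z).ofLp h := by
    filter_upwards [isOpen_ball.mem_nhds (show (0 : ℂ) ∈ ball (0 : ℂ) (3 / 4) by simp)] with z hz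
    exact hgw z hz
  rw [kf_lift hφ hw0 hgφ h2]
  exact mul_le_mul_of_nonneg_right hk (by positivity)

end Pool.Agent.PX
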