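import Pool.Agent.PX.F.Crv
import Pool.Agent.PX.Ext
import Pool.Agent.PX.R3c
import Pool.Agent.PX.PicF
import Pool.Agent.G4.V.Defs
import Pool.Agent.G4.Simp

/-!
# PX F Pun: the punctured disc

`torus_half`, `lift_disc` on the discs `ball ζ (-ζ.re)` (radius `-ζ.re / 2`), `BD.base_ext`: `H` on the disc with `t (exp ζ) = H (exp ζ)`, so `t' z = H z`.  Second part: at the point `z` of the hypothesis `H z - y ∈ Λ`, so `R3 θ (H z)` (`BD.per`); the forms over `H z`, `z ≠ 0`, are not `0` (`IsCurve.avoids`); `r3_conn`,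
`fib_ext` (with `g z = pr (toLp (g z).rep)`, `llift_of`): `g' = mk G` on a small disc, `g' = g` elsewhere.
-/

set_option autoImplicit false

open Topology Filter Metric MvPolynomial

namespace Pool.Agent.PX

open Pool.Agent.H17 (PN VanishesAt HolomorphicInto puncturedDisc ZariskiClosedIn)
open Pool.Agent.H17LG.Variety (FunField IsLogGeneralType)
open Pool.Agent.H62.FC (Homog)
open Pool.Agent.H62.SA (locVar OnBd)
open Pool.Agent.H17EF (projVar)
open Pool.Agent.H36.BP (EN fs wd)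
open Pool.Agent.H62.EF (MN pr)
open Pool.Agent.AD (Vd IsHolomorphicTorusMap)
open Pool.Agent.TG (Lat Gd)
open Pool.Agent.G3 (wt TT LLift)
open Pool.Agent.G4 (Few Simp)
open Pool.Agent.PXF (Cn form IsSimple IsThetaForm ThreePoints Avoids HolomorphicIntoTorus IsCurve)
open Pool.Agent.G4F (GGLCOpen)

variable {N k d r : ℕ} {Λ : AddSubgroup (Vd (k + 1))} {D : Set (Vd (k + 1))} {Bad : Vd (k + 1) → Set (Vd (k + 1))} {θ : Fin (d + 1) → Vd (k + 1) → ℂ}
  {W : Fin r → Vd (k + 1) →L[ℂ] ℂ}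

/-- composition of a holomorphic map to the projective line with a holomorphic function -/
private theorem Pun_comp {g : ℂ → PN 1} {U V : Set ℂ} (hg : HolomorphicInto g U) {φ : ℂ → ℂ} (hφ : ∀ z ∈ V, AnalyticAt ℂ φ z ∧ φ z ∈ U) :
    HolomorphicInto (fun z => g (φ z)) V := by
  intro z₀ hz₀
  obtain ⟨h1, h2⟩ := hφ z₀ hz₀
  obtain ⟨ψ, hψ, he⟩ := hg (φ z₀) h2
  exact ⟨fun z => ψ (φ z), hψ.comp h1, h1.continuousAt.eventually he⟩

/-- the component in the torus, on a slightly smaller disc -/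
private theorem Pun_base (B : BD Λ θ) {t : ℂ → Cn (k + 1) ⧸ Λ} {g : ℂ → PN 1} (hc : IsCurve Λ θ t g puncturedDisc) {ε : ℝ} (hε : 0 < ε) :
    ∃ H : ℂ → Vd (k + 1), DifferentiableOn ℂ H (ball 0 1) ∧ ∀ z ∈ puncturedDisc, t (Complex.exp (-(ε : ℂ)) * z) = (H z : Cn (k + 1) ⧸ Λ) := by
  obtain ⟨h, hh, ht⟩ := torus_half B.lat hc.torus
  have hmem : ∀ ζ : ℂ, ζ.re < 0 → Complex.exp ζ ∈ puncturedDisc := by
    intro ζ hζ
    refine ⟨?_, Complex.exp_ne_zero ζ⟩
    rw [mem_ball_zero_iff, Complex.norm_exp]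
    exact (Real.exp_lt_exp.2 hζ).trans_eq Real.exp_zero
  have hre : ∀ ζ : ℂ, (ζ - (ε : ℂ)).re = ζ.re - ε := by
    intro ζ
    rw [Complex.sub_re, Complex.ofReal_re]
  obtain ⟨H, hH, hH2⟩ := B.base_ext (h := fun ζ => h (ζ - ε)) (by
    intro ζ hζ
    have hsub : ∀ z ∈ ball ζ (-ζ.re + ε), (z - (ε : ℂ)).re < 0 := by
      intro z hz
      rw [hre]
      rw [mem_ball, dist_eq_norm] at hz
      have h1 := Complex.re_le_norm (z - ζ)
      rw [Complex.sub_re] at h1
      linarith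
    have hd : DifferentiableOn ℂ (fun z => h (z - ε)) (ball ζ (-ζ.re + ε)) := by
      refine hh.comp (by fun_prop) ?_
      intro z hz
      exact hsub z hz
    have hg : HolomorphicInto (fun z => g (Complex.exp (z - ε))) (ball ζ (-ζ.re + ε)) := by
      refine Pun_comp hc.line ?_
      intro z hz
      refine ⟨?_, hmem _ (hsub z hz)⟩
      fun_prop
    obtain ⟨w, hw, -⟩ := lift_disc (Λ := Λ) (θ := θ) hd hg (by
      intro z hz
      have h1 := hc.avoids _ (hmem _ (hsub z hz))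
      rw [ht _ (hsub z hz)] at h1
      exact h1) (show -ζ.re / 2 < -ζ.re + ε by linarith)
    exact ⟨w, hw⟩) (by
    intro ζ hζ
    have h1 : (ζ - (ε : ℂ)).re < 0 := by
      rw [hre]
      linarith
    have h2 : (ζ + 2 * Real.pi * Complex.I - (ε : ℂ)).re < 0 := by
      rw [hre]
      simp
      linarith
    have h3 := ht _ h1
    have h4 := ht _ h2
    have h5 : Complex.exp (ζ + 2 * Real.pi * Complex.I - ε) = Complex.exp (ζ - ε) := by
      rw [show ζ + 2 * Real.pi * Complex.I - (ε : ℂ) = (ζ - ε) + 2 * Real.pi * Complex.I by ring, Complex.exp_periodic]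
    rw [h5, h3, QuotientAddGroup.eq] at h4
    have h6 : h (ζ + 2 * Real.pi * Complex.I - ε) - h (ζ - ε) = -h (ζ - ε) + h (ζ + 2 * Real.pi * Complex.I - ε) := by abel
    show h (ζ + 2 * Real.pi * Complex.I - ε) - h (ζ - ε) ∈ Λ
    rw [h6]
    exact h4)
  refine ⟨H, hH, ?_⟩
  rintro z ⟨hz, hz0⟩
  have hz0' : z ≠ 0 := hz0
  have hlog : (Complex.log z).re < 0 := by
    rw [Complex.log_re]
    exact Real.log_neg (norm_pos_iff.2 hz0') (mem_ball_zero_iff.1 hz)
  have h1 := hH2 _ hlog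
  rw [Complex.exp_log hz0'] at h1
  have h2 : Complex.exp (-(ε : ℂ)) * z = Complex.exp (Complex.log z - ε) := by
    rw [sub_eq_add_neg, Complex.exp_add, Complex.exp_log hz0', mul_comm]
  have h3 : (Complex.log z - (ε : ℂ)).re < 0 := by
    rw [hre]
    linarith
  rw [h2, ht _ h3, ← h1]

private theorem Pun_fo (B : BD Λ θ) {l : Vd (k + 1)} (hl : l ∈ Λ) (y : Vd (k + 1)) : ∀ x : EN 1, Fo θ y x = 0 → Fo θ (y + l) x = 0 := by
  intro x hx
  obtain ⟨e, -, he⟩ := B.per l hl y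
  have h1 : Fo θ (y + l) x = e * Fo θ y x := by
    unfold Fo
    rw [Finset.mul_sum]
    refine Finset.sum_congr rfl fun i _ => ?_
    rw [he i]
    ring
  rw [h1, hx, mul_zero]

theorem BD.punctured (B : BD Λ θ) (t : ℂ → Cn (k + 1) ⧸ Λ) (g : ℂ → PN 1) (hc : IsCurve Λ θ t g puncturedDisc) :
    (∃ t' : ℂ → Cn (k + 1) ⧸ Λ, HolomorphicIntoTorus Λ t' (ball 0 1) ∧ ∀ z ∈ puncturedDisc, t' z = t z) ∧
    ((∃ z ∈ puncturedDisc, ∃ y : Cn (k + 1), t z = (y : Cn (k + 1) ⧸ Λ) ∧ ThreePoints θ y) → ∃ g' : ℂ → PN 1, HolomorphicInto g' (ball 0 1) ∧ ∀ z ∈ puncturedDisc, g' z = g z) := by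
  classical
  have hexp : ∀ ε : ℝ, Complex.exp (-(ε : ℂ)) * Complex.exp (ε : ℂ) = 1 := by
    intro ε
    rw [← Complex.exp_add, neg_add_cancel, Complex.exp_zero]
  have hcancel : ∀ (ε : ℝ) (z : ℂ), Complex.exp (-(ε : ℂ)) * (Complex.exp (ε : ℂ) * z) = z := by
    intro ε z
    rw [← mul_assoc, hexp, one_mul]
  have hnorm : ∀ (ε : ℝ) (z : ℂ), ‖Complex.exp (ε : ℂ) * z‖ = Real.exp ε * ‖z‖ := by
    intro ε z
    rw [norm_mul, Complex.norm_exp, Complex.ofReal_re]
  have hnhds : ∀ (ε ρ : ℝ), 0 < ρ → ∀ᶠ z : ℂ in 𝓝 0, Complex.exp (ε : ℂ) * z ∈ ball (0 : ℂ) ρ := by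
    intro ε ρ hρ
    have h1 : ContinuousAt (fun z : ℂ => Complex.exp (ε : ℂ) * z) 0 := by fun_prop
    have h2 : ball (0 : ℂ) ρ ∈ 𝓝 ((fun z : ℂ => Complex.exp (ε : ℂ) * z) 0) := by
      simp only [mul_zero]
      exact ball_mem_nhds 0 hρ
    exact h1 h2
  have hne : ∀ (ε : ℝ) (z : ℂ), z ≠ 0 → Complex.exp (ε : ℂ) * z ≠ 0 := fun ε z hz => mul_ne_zero (Complex.exp_ne_zero _) hz
  constructor
  · obtain ⟨H, hH, hHt⟩ := Pun_base B hc (zero_lt_one (α := ℝ))
    refine ⟨fun z => if z = 0 then (H 0 : Cn (k + 1) ⧸ Λ) else t z, ?_, ?_⟩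
    · intro z₀ hz₀
      by_cases h0 : z₀ = 0
      · subst h0
        refine ⟨fun z => H (Complex.exp ((1 : ℝ) : ℂ) * z), ?_, ?_⟩
        · have h1 : AnalyticAt ℂ H (Complex.exp ((1 : ℝ) : ℂ) * 0) := by
            rw [mul_zero]
            exact hH.analyticAt (ball_mem_nhds 0 one_pos)
          exact AnalyticAt.fun_comp h1 (by fun_prop)
        · filter_upwards [hnhds 1 1 one_pos] with z hz
          by_cases hz0 : z = 0
          · subst hz0
            simp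
          · rw [if_neg hz0, ← hHt _ ⟨hz, hne 1 z hz0⟩, hcancel]
      · obtain ⟨h, hh, he⟩ := hc.torus z₀ ⟨hz₀, h0⟩
        refine ⟨h, hh, ?_⟩
        filter_upwards [he, isOpen_ne.mem_nhds h0] with z hz hz0
        rw [if_neg hz0, hz]
    · intro z hz
      exact if_neg hz.2
  · rintro ⟨z₁, hz₁, y, hy, h3⟩
    have hz₁0 : z₁ ≠ 0 := hz₁.2
    have hz₁n : ‖z₁‖ < 1 := mem_ball_zero_iff.1 hz₁.1
    have hz₁p : 0 < ‖z₁‖ := norm_pos_iff.2 hz₁0
    set ε : ℝ := -Real.log ‖z₁‖ / 2 with hεd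
    have hε : 0 < ε := by
      have := Real.log_neg hz₁p hz₁n
      linarith
    obtain ⟨H, hH, hHt⟩ := Pun_base B hc hε
    set z₂ : ℂ := Complex.exp (ε : ℂ) * z₁ with hz₂
    have hz₂0 : z₂ ≠ 0 := hne ε z₁ hz₁0
    have hz₂b : z₂ ∈ ball (0 : ℂ) 1 := by
      rw [mem_ball_zero_iff, hz₂, hnorm]
      have h1 : ‖z₁‖ = Real.exp (-(2 * ε)) := by
        rw [hεd, show -(2 * (-Real.log ‖z₁‖ / 2)) = Real.log ‖z₁‖ by ring, Real.exp_log hz₁p]
      rw [h1, ← Real.exp_add]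
      exact (Real.exp_lt_exp.2 (show ε + -(2 * ε) < 0 by linarith)).trans_eq Real.exp_zero
    have hav : ∀ z ∈ ball (0 : ℂ) 1, z ≠ 0 → Fo θ (H z) (WithLp.toLp 2 (g (Complex.exp (-(ε : ℂ)) * z)).rep) ≠ 0 := by
      intro z hz hz0
      have hz' : Complex.exp (-(ε : ℂ)) * z ∈ puncturedDisc := by
        refine ⟨?_, mul_ne_zero (Complex.exp_ne_zero _) hz0⟩
        rw [mem_ball_zero_iff, norm_mul, Complex.norm_exp, Complex.neg_re, Complex.ofReal_re]
        have h1 : Real.exp (-ε) ≤ 1 := Real.exp_le_one_iff.2 (by linarith)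
        have h2 := mem_ball_zero_iff.1 hz
        calc Real.exp (-ε) * ‖z‖ ≤ 1 * ‖z‖ := mul_le_mul_of_nonneg_right h1 (norm_nonneg _)
          _ < 1 := by rw [one_mul]; exact h2
      exact hc.avoids _ hz' (H z) (hHt z ⟨hz, hz0⟩).symm
    have hn : ∀ z ∈ ball (0 : ℂ) 1, z ≠ 0 → ∃ i, θ i (H z) ≠ 0 := by
      intro z hz hz0
      by_contra hcon
      push Not at hcon
      apply hav z hz hz0
      unfold Fo
      refine Finset.sum_eq_zero fun i _ => ?_
      rw [hcon i, zero_mul, zero_mul]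
    have hR3 : R3 θ (H z₂) := by
      have h1 := hHt z₂ ⟨hz₂b, hz₂0⟩
      rw [hz₂, hcancel, hy, QuotientAddGroup.eq] at h1
      obtain ⟨x₁, x₂, x₃, e1, e2, e3, d1, d2, d3⟩ := (three_iff θ y).1 h3
      have h2 : H z₂ = y + (-y + H z₂) := by abel
      have h4 := Pun_fo B h1 y
      rw [← hz₂, ← h2] at h4
      exact ⟨x₁, x₂, x₃, h4 x₁ e1, h4 x₂ e2, h4 x₃ e3, d1, d2, d3⟩
    have hev := r3_conn B.an hH hn hz₂b hz₂0 hR3
    have hgs : HolomorphicInto (fun z => g (Complex.exp (-(ε : ℂ)) * z)) puncturedDisc := by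
      refine Pun_comp hc.line ?_
      rintro z ⟨hz, hz0⟩
      refine ⟨by fun_prop, ?_, mul_ne_zero (Complex.exp_ne_zero _) hz0⟩
      rw [mem_ball_zero_iff, norm_mul, Complex.norm_exp, Complex.neg_re, Complex.ofReal_re]
      have h1 : Real.exp (-ε) ≤ 1 := Real.exp_le_one_iff.2 (by linarith)
      have h2 := mem_ball_zero_iff.1 hz
      calc Real.exp (-ε) * ‖z‖ ≤ 1 * ‖z‖ := mul_le_mul_of_nonneg_right h1 (norm_nonneg _)
        _ < 1 := by rw [one_mul]; exact h2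
    have hrep : ∀ p : PN 1, (WithLp.toLp 2 p.rep : EN 1) ≠ 0 := by
      intro p h0
      apply p.rep_nonzero
      have := congrArg WithLp.ofLp h0
      exact this
    obtain ⟨ρ, hρ, G, hG, hG0, hGg⟩ := fib_ext B.an one_pos hH (g := fun z => pr (WithLp.toLp 2 (g (Complex.exp (-(ε : ℂ)) * z)).rep : EN 1))
      (fun z hz hz0 => llift_of hgs ⟨hz, hz0⟩) (by
        intro z hz hz0 x hx hpr
        obtain ⟨c, hc0, hcx⟩ := (Pool.Agent.H62.EF.pr_eq_iff hx (hrep _)).1 hpr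
        rw [hcx, fo_smul]
        exact mul_ne_zero (pow_ne_zero _ hc0) (hav z hz hz0)) hev
    have hG0' : G 0 ≠ 0 := hG0 0 (mem_ball_self hρ)
    have hof : ∀ x : EN 1, x ≠ 0 → x.ofLp ≠ 0 := by
      intro x hx h0
      apply hx
      have := congrArg (WithLp.toLp 2) h0
      exact this
    refine ⟨fun z => if z = 0 then Projectivization.mk ℂ (G 0).ofLp (hof _ hG0') else g z, ?_, ?_⟩
    · intro z₀ hz₀
      by_cases h0 : z₀ = 0
      · subst h0
        refine ⟨fun z => (G (Complex.exp (ε : ℂ) * z)).ofLp, ?_, ?_⟩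
        · have h1 : AnalyticAt ℂ G (Complex.exp (ε : ℂ) * 0) := by
            rw [mul_zero]
            exact hG.analyticAt (ball_mem_nhds 0 hρ)
          have h2 : AnalyticAt ℂ (fun z => G (Complex.exp (ε : ℂ) * z)) 0 := AnalyticAt.fun_comp h1 (by fun_prop)
          exact (PiLp.continuousLinearEquiv 2 ℂ (fun _ : Fin (1 + 1) => ℂ)).toContinuousLinearMap.analyticAt _ |>.comp h2
        · filter_upwards [hnhds ε ρ hρ] with z hz
          refine ⟨hof _ (hG0 _ hz), ?_⟩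
          by_cases hz0 : z = 0
          · subst hz0
            rw [if_pos rfl]
            congr 2
            rw [mul_zero]
          · rw [if_neg hz0]
            have h1 := hGg _ hz (hne ε z hz0)
            simp only [hcancel] at h1
            obtain ⟨c, hc0, hcx⟩ := (Pool.Agent.H62.EF.pr_eq_iff (hrep _) (hG0 _ hz)).1 h1
            rw [← (g z).mk_rep, Projectivization.mk_eq_mk_iff']
            refine ⟨c, ?_⟩
            have := congrArg WithLp.ofLp hcx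
            exact this.symm
      · obtain ⟨φ, hφ, he⟩ := hc.line z₀ ⟨hz₀, h0⟩
        refine ⟨φ, hφ, ?_⟩
        filter_upwards [he, isOpen_ne.mem_nhds h0] with z hz hz0
        rw [if_neg hz0]
        exact hz
    · intro z hz
      exact if_neg hz.2

end Pool.Agent.PX
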