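import Pool.Agent.PX.F.Tr
import Pool.Agent.PX.BDp
import Pool.Agent.PY.Main
import Pool.Agent.PX.F.Dsc
import Pool.Agent.PX.F.Ent
import Pool.Agent.PX.F.Pun
import Pool.Agent.PX.F.KobF
import Pool.Agent.PX.F.Ggl

/-!
# PX F Main: the final theorem
-/

set_option autoImplicit false

open Topology Filter Metric MvPolynomial

namespace Pool.Agent.PX

open Pool.Agent.H17 (PN VanishesAt HolomorphicInto puncturedDisc ZariskiClosedIn)
open Pool.Agent.H17LG.Variety (FunField IsLogGeneralType)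
open Pool.Agent.H62.FC (Homog)
open Pool.Agent.H62.SA (locVar OnBd)
open Pool.Agent.H17EF (projVar)
open Pool.Agent.H36.BP (EN fs wd)
open Pool.Agent.H62.EF (MN pr)
open Pool.Agent.AD (Vd IsHolomorphicTorusMap)
open Pool.Agent.TG (Lat Gd)
open Pool.Agent.G3 (wt TT LLift)
open Pool.Agent.G4 (Few Simp)
open Pool.Agent.PXF (Cn form IsSimple IsThetaForm IsReduced HasNoLines ThreePoints Avoids HolomorphicIntoTorus IsCurve IsCurveIn IsHyperbolicModulo IsFiniteOver complement fewPoints KobayashiPositive)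
open Pool.Agent.G4F (GGLCOpen)

variable {N k d r : ℕ} {Λ : AddSubgroup (Vd (k + 1))} {D : Set (Vd (k + 1))} {Bad : Vd (k + 1) → Set (Vd (k + 1))} {θ : Fin (d + 1) → Vd (k + 1) → ℂ}
  {W : Fin r → Vd (k + 1) →L[ℂ] ℂ}


theorem exists_bd (Λ : AddSubgroup (Cn (k + 1))) [DiscreteTopology Λ] (hspan : Submodule.span ℝ (Λ : Set (Cn (k + 1))) = ⊤)
    {θ : Fin (d + 1) → Cn (k + 1) → ℂ} (h : IsThetaForm Λ θ) (h' : (3 ≤ d ∧ IsSimple Λ ∧ IsReduced θ) ∨ HasNoLines θ) : BD Λ θ := by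
  rcases h' with ⟨hd, hs, h'⟩ | h'
  · obtain ⟨r, W, D, Bad, Pd⟩ := exists_data Λ hspan hs hd h h'
    exact Pd.bd
  · obtain ⟨r, W, hpos, hW⟩ := h.quasiPeriodic
    refine Pool.Agent.PY.bd_of (W := W) (Pool.Agent.TGF.gu_lat Λ hspan) h.holomorphic (fun l hl y => ?_) hpos (fun a ha y => ?_) fun a ha y => ?_
    · obtain ⟨e, he, h1⟩ := hW l hl y
      refine ⟨e, ?_, h1⟩
      rw [he, ← Real.exp_add]
      unfold wt
      congr 1
      ring
    · obtain ⟨z, h1, h2⟩ := h'.threePoints a y ha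
      exact ⟨z, h1, (three_iff θ _).1 h2⟩
    · rintro ⟨G, h1, h2, h3⟩
      refine h'.roots a y ha ⟨fun z => (G z).ofLp, ?_, fun z hz => h2 z ?_, h3⟩
      · exact (EuclideanSpace.equiv (Fin 2) ℂ).differentiable.comp h1
      · ext i
        exact congrFun hz i

theorem BD.hyperbolic {θ : Fin (d + 1) → Cn (k + 1) → ℂ} (B : BD Λ θ) : IsHyperbolicModulo Λ (complement Λ θ) (fewPoints Λ θ) := by
  refine ⟨?_, ?_, ?_⟩
  · obtain ⟨C, hC⟩ := B.discs
    exact ⟨C, fun h g hh hc => hC h g (PXF.isCurve_iff.2 hc) hh⟩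
  · intro t g hc z w
    obtain ⟨y, hy, hy'⟩ := B.entire t g (PXF.isCurve_iff.2 hc)
    refine ⟨by rw [hy z, hy w], fun hz => hy' ?_ z w⟩
    by_contra hcon
    exact hz ⟨y, (hy z).symm, hcon⟩
  · intro t g hc
    obtain ⟨h1, h2⟩ := B.punctured t g (PXF.isCurve_iff.2 hc)
    refine ⟨h1, fun ⟨z, hz, hz'⟩ => h2 ?_⟩
    obtain ⟨y, hy⟩ := QuotientAddGroup.mk_surjective (t z)
    refine ⟨z, hz, y, hy.symm, ?_⟩
    by_contra hcon
    exact hz' ⟨y, hy, hcon⟩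

theorem BD.kob {θ : Fin (d + 1) → Cn (k + 1) → ℂ} (B : BD Λ θ) : KobayashiPositive Λ θ := by
  intro y h3 h0
  obtain ⟨C, hC⟩ := B.kobayashi y h3 h0
  refine ⟨C, ?_⟩
  have hm : ContinuousAt (fun y' : Cn (k + 1) => (y' : Cn (k + 1) ⧸ Λ)) y := continuous_quotient_mk'.continuousAt
  filter_upwards [hm.tendsto.eventually hC] with y' hy' t g φ hc
  exact hy' t g φ (PXF.isCurve_iff.2 hc)

end Pool.Agent.PX
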