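import Pool.Agent.PX.F.CDefs
import Pool.Agent.PX.F.Main

/-!
# PX F Poly: the theorem for `A × ℙ¹` in terms of polynomials
-/

set_option autoImplicit false

open Topology Filter Metric MvPolynomial

namespace Pool.Agent.PX

open Pool.Agent.H17 (PN VanishesAt HolomorphicInto puncturedDisc)
open Pool.Agent.PXF (Cn IsSimple IsThetaForm IsReduced ThreePoints IsCurveIn IsHyperbolicModulo complement fewPoints)
open Pool.Agent.HEF (HasThreeZeros fewZeros IsReducedDivisor IsAmple IsSection IsHolomorphicForm outside)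

variable {k d : ℕ} {Λ : AddSubgroup (Cn (k + 1))}

/-- the exponent `(i, d - i)` -/
noncomputable def ex (d i : ℕ) : Fin 2 →₀ ℕ := Finsupp.single 0 i + Finsupp.single 1 (d - i)

@[simp] theorem ex_zero (d i : ℕ) : ex d i 0 = i := by simp [ex]

@[simp] theorem ex_one (d i : ℕ) : ex d i 1 = d - i := by simp [ex]

theorem ex_inj (d : ℕ) : Function.Injective fun i : Fin (d + 1) => ex d i := by
  intro i j h
  have h1 := congrArg (fun m : Fin 2 →₀ ℕ => m 0) h
  simpa [Fin.ext_iff] using h1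

/-- the coefficients -/
noncomputable def tht (d : ℕ) (F : Cn (k + 1) → MvPolynomial (Fin 2) ℂ) (i : Fin (d + 1)) (y : Cn (k + 1)) : ℂ := (F y).coeff (ex d i)

theorem mem_ex {f : MvPolynomial (Fin 2) ℂ} (hf : f.IsHomogeneous d) {m : Fin 2 →₀ ℕ} (hm : f.coeff m ≠ 0) : ∃ i : Fin (d + 1), ex d i = m := by
  have h1 : m.degree = d := by
    have h0 := hf hm
    have h2 : Finsupp.degree m = Finsupp.weight (fun _ => 1) m := DFunLike.congr_fun (Finsupp.degree_eq_weight_one (σ := Fin 2) (R := ℕ)) m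
    exact h2.trans h0
  have h2 : m 0 + m 1 = d := by
    rw [← h1, Finsupp.degree_eq_sum, Fin.sum_univ_two]
  refine ⟨⟨m 0, by omega⟩, ?_⟩
  ext i
  fin_cases i
  · simp
  · simp only [Fin.mk_one, ex_one]
    omega

theorem eval_ex {f : MvPolynomial (Fin 2) ℂ} (hf : f.IsHomogeneous d) (x : Cn 2) :
    eval x f = ∑ i : Fin (d + 1), f.coeff (ex d i) * x 0 ^ (i : ℕ) * x 1 ^ (d - (i : ℕ)) := by
  classical
  rw [eval_eq', Finset.sum_subset (s₂ := Finset.univ.image fun i : Fin (d + 1) => ex d i), Finset.sum_image fun i _ j _ h => ex_inj d h]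
  · refine Finset.sum_congr rfl fun i _ => ?_
    rw [Fin.prod_univ_two, ex_zero, ex_one, mul_assoc]
  · intro m hm
    obtain ⟨i, hi⟩ := mem_ex hf (mem_support_iff.1 hm)
    exact Finset.mem_image.2 ⟨i, Finset.mem_univ _, hi⟩
  · intro m _ hm
    rw [notMem_support_iff.1 hm, zero_mul]

theorem eval_form {F : Cn (k + 1) → MvPolynomial (Fin 2) ℂ} {y : Cn (k + 1)} (hF : (F y).IsHomogeneous d) (x : Cn 2) : PXF.form (tht d F) y x = eval x (F y) :=
  (eval_ex hF x).symm

theorem eq_zero_iff {F : Cn (k + 1) → MvPolynomial (Fin 2) ℂ} {y : Cn (k + 1)} (hF : (F y).IsHomogeneous d) : F y ≠ 0 ↔ ∃ i, tht d F i y ≠ 0 := by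
  constructor
  · intro h
    obtain ⟨m, hm⟩ := ne_zero_iff.1 h
    obtain ⟨i, hi⟩ := mem_ex hF hm
    exact ⟨i, by rw [tht, hi]; exact hm⟩
  · rintro ⟨i, hi⟩ h
    exact hi (by rw [tht, h, coeff_zero])

theorem vanishes_iff {f : MvPolynomial (Fin 2) ℂ} (hf : f.IsHomogeneous d) {x : Cn 2} (hx : x ≠ 0) : VanishesAt f (Projectivization.mk ℂ x hx) ↔ eval x f = 0 :=
  Pool.Agent.H17.vanishesAt_mk_iff hf x hx

theorem mk_ne {x y : Cn 2} (hx : x ≠ 0) (hy : y ≠ 0) : Projectivization.mk ℂ x hx ≠ Projectivization.mk ℂ y hy ↔ x 0 * y 1 ≠ x 1 * y 0 := by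
  rw [not_iff_not, Projectivization.mk_eq_mk_iff']
  constructor
  · rintro ⟨a, ha⟩
    rw [← ha]
    simp only [Pi.smul_apply, smul_eq_mul]
    ring
  · intro h
    by_cases h0 : y 0 = 0
    · have h1 : y 1 ≠ 0 := by
        intro h1
        apply hy
        ext i
        fin_cases i
        · exact h0
        · exact h1
      refine ⟨x 1 / y 1, ?_⟩
      ext i
      fin_cases i
      · simp only [Fin.zero_eta, Pi.smul_apply, smul_eq_mul, h0, mul_zero]
        rw [h0, mul_zero] at h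
        exact ((mul_eq_zero.1 h).resolve_right h1).symm
      · simp only [Fin.mk_one, Pi.smul_apply, smul_eq_mul]
        field_simp
    · refine ⟨x 0 / y 0, ?_⟩
      ext i
      fin_cases i
      · simp only [Fin.zero_eta, Pi.smul_apply, smul_eq_mul]
        field_simp
      · simp only [Fin.mk_one, Pi.smul_apply, smul_eq_mul]
        field_simp
        rw [h, mul_comm]

theorem three_zeros_iff {F : Cn (k + 1) → MvPolynomial (Fin 2) ℂ} {y : Cn (k + 1)} (hF : (F y).IsHomogeneous d) : HasThreeZeros (F y) ↔ ThreePoints (tht d F) y := by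
  unfold HasThreeZeros ThreePoints
  constructor
  · rintro ⟨p₁, p₂, p₃, h1, h2, h3, h4, h5, h6⟩
    refine ⟨p₁.rep, p₂.rep, p₃.rep, ?_, ?_, ?_, ?_, ?_, ?_⟩
    · rw [eval_form hF]; exact h1
    · rw [eval_form hF]; exact h2
    · rw [eval_form hF]; exact h3
    · rw [← mk_ne p₁.rep_nonzero p₂.rep_nonzero, p₁.mk_rep, p₂.mk_rep]; exact h4
    · rw [← mk_ne p₁.rep_nonzero p₃.rep_nonzero, p₁.mk_rep, p₃.mk_rep]; exact h5
    · rw [← mk_ne p₂.rep_nonzero p₃.rep_nonzero, p₂.mk_rep, p₃.mk_rep]; exact h6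
  · rintro ⟨x₁, x₂, x₃, h1, h2, h3, h4, h5, h6⟩
    have hx₁ : x₁ ≠ 0 := by
      rintro rfl
      simp at h4
    have hx₂ : x₂ ≠ 0 := by
      rintro rfl
      simp at h4
    have hx₃ : x₃ ≠ 0 := by
      rintro rfl
      simp at h5
    rw [eval_form hF] at h1 h2 h3
    exact ⟨Projectivization.mk ℂ x₁ hx₁, Projectivization.mk ℂ x₂ hx₂, Projectivization.mk ℂ x₃ hx₃, (vanishes_iff hF hx₁).2 h1, (vanishes_iff hF hx₂).2 h2,
      (vanishes_iff hF hx₃).2 h3, (mk_ne hx₁ hx₂).2 h4, (mk_ne hx₁ hx₃).2 h5, (mk_ne hx₂ hx₃).2 h6⟩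

/-- The derivative of the evaluation map of a polynomial. -/
theorem hasFDerivAt_eval {ι : Type} [Fintype ι] (p : MvPolynomial ι ℂ) (w : ι → ℂ) :
    HasFDerivAt (fun y : ι → ℂ => eval y p) (∑ i, eval w (pderiv i p) • (ContinuousLinearMap.proj i : (ι → ℂ) →L[ℂ] ℂ)) w := by
  classical
  induction p using MvPolynomial.induction_on with
  | C a =>
    have h := hasFDerivAt_const (𝕜 := ℂ) a w
    have h2 : HasFDerivAt (fun y : ι → ℂ => eval y (C a : MvPolynomial ι ℂ)) (0 : (ι → ℂ) →L[ℂ] ℂ) w := by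
      simpa using h
    refine h2.congr_fderiv ?_
    ext v
    simp
  | add p q hp hq =>
    have h := hp.add hq
    have h2 : (fun y : ι → ℂ => eval y (p + q)) = (fun y => eval y p) + fun y => eval y q := by
      funext y
      exact map_add _ _ _
    rw [h2]
    refine h.congr_fderiv ?_
    ext v
    simp [Finset.sum_add_distrib, add_mul]
  | mul_X p n hp =>
    have h1 : HasFDerivAt (fun y : ι → ℂ => y n) (ContinuousLinearMap.proj n : (ι → ℂ) →L[ℂ] ℂ) w := hasFDerivAt_apply n w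
    have h := hp.mul h1
    have h2 : (fun y : ι → ℂ => eval y (p * X n)) = (fun y => eval y p) * fun y => y n := by
      funext y
      simp only [map_mul, eval_X, Pi.mul_apply]
    rw [h2]
    refine h.congr_fderiv ?_
    ext v
    simp only [Derivation.leibniz, pderiv_X, smul_eq_mul, map_add, map_mul, eval_X,
      FunLike.coe_add, FunLike.coe_smul, Pi.add_apply, Pi.smul_apply, ContinuousLinearMap.proj_apply,
      sum_apply, add_mul]
    rw [Finset.sum_add_distrib]
    congr 1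
    · rw [Finset.sum_eq_single n]
      · simp
      · intro b _ hb
        simp [hb.symm]
      · intro h; exact absurd (Finset.mem_univ n) h
    · rw [Finset.mul_sum]
      exact Finset.sum_congr rfl fun i _ => by ring

theorem thetaForm_of {F : Cn (k + 1) → MvPolynomial (Fin 2) ℂ} (hF : IsHolomorphicForm Set.univ F d) (ha : IsAmple Λ F) : IsThetaForm Λ (tht d F) := by
  obtain ⟨r, W, hW, -, hq⟩ := ha
  refine ⟨fun i => differentiableOn_univ.1 (hF.holomorphic _), r, W, hW, fun l hl y => ?_⟩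
  obtain ⟨e, he, h1⟩ := hq l hl y
  refine ⟨e, he, fun i => ?_⟩
  rw [tht, h1, coeff_C_mul, tht]

theorem reduced_of {F : Cn (k + 1) → MvPolynomial (Fin 2) ℂ} (h : IsReducedDivisor Λ F d) : IsReduced (tht d F) := by
  have hh : ∀ y, (F y).IsHomogeneous d := fun y => h.form.homogeneous y (Set.mem_univ y)
  constructor
  · obtain ⟨y, hy⟩ := h.simpleZeros
    refine ⟨y, fun x hx h0 => ?_⟩
    rw [eval_form (hh y)] at h0
    obtain ⟨i, hi⟩ := hy x hx h0
    have h1 : PXF.form (tht d F) y = fun x => eval x (F y) := funext fun x => eval_form (hh y) x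
    rw [h1, (hasFDerivAt_eval (F y) x).fderiv]
    intro h2
    apply hi
    have h3 := congrArg (fun L : (Fin 2 → ℂ) →L[ℂ] ℂ => L (Pi.single i 1)) h2
    fin_cases i
    · simpa [Fin.sum_univ_two] using h3
    · simpa [Fin.sum_univ_two] using h3
  · intro y hy b
    have h1 : F y = 0 := by
      by_contra hne
      obtain ⟨i, hi⟩ := (eq_zero_iff (hh y)).1 hne
      exact hi (hy i)
    refine (h.codimension y h1 b).mono fun z hz => ⟨?_, (eq_zero_iff (hh z)).1 hz.2⟩
    rw [eval_form (hh z)]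
    exact hz.1

theorem outside_eq {F : Cn (k + 1) → MvPolynomial (Fin 2) ℂ} (hF : IsHolomorphicForm Set.univ F d) : outside Λ Set.univ (fun _ : Fin 1 => F) = complement Λ (tht d F) := by
  ext q
  constructor
  · intro h y hy
    rw [eval_form (hF.homogeneous y (Set.mem_univ y))]
    exact h.2 y hy 0
  · intro h
    refine ⟨Set.mem_univ _, fun y hy _ h1 => h y hy ?_⟩
    rw [eval_form (hF.homogeneous y (Set.mem_univ y))]
    exact h1

theorem few_eq {F : Cn (k + 1) → MvPolynomial (Fin 2) ℂ} (hF : IsHolomorphicForm Set.univ F d) : fewZeros Λ F = fewPoints Λ (tht d F) := by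
  ext t
  exact exists_congr fun y => and_congr_right fun _ => not_congr (three_zeros_iff (hF.homogeneous y (Set.mem_univ y)))

/-- the theorem for reduced hypersurfaces of `A × ℙ¹` -/
theorem _root_.Pool.Agent.HEF.IsReducedDivisor.bd [DiscreteTopology Λ] (hspan : Submodule.span ℝ (Λ : Set (Cn (k + 1))) = ⊤) {F : Cn (k + 1) → MvPolynomial (Fin 2) ℂ} (h : IsReducedDivisor Λ F d) :
    BD Λ (tht d F) :=
  exists_bd Λ hspan (thetaForm_of h.form h.ample) (Or.inl ⟨h.degree, h.simple, reduced_of h⟩)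

theorem _root_.Pool.Agent.HEF.IsReducedDivisor.hyperbolic [DiscreteTopology Λ] (hspan : Submodule.span ℝ (Λ : Set (Cn (k + 1))) = ⊤) {F : Cn (k + 1) → MvPolynomial (Fin 2) ℂ}
    (h : IsReducedDivisor Λ F d) : IsHyperbolicModulo Λ (outside Λ Set.univ fun _ : Fin 1 => F) (fewZeros Λ F) := by
  rw [outside_eq h.form, few_eq h.form]
  exact (h.bd hspan).hyperbolic

theorem _root_.Pool.Agent.HEF.IsReducedDivisor.kobayashi [DiscreteTopology Λ] (hspan : Submodule.span ℝ (Λ : Set (Cn (k + 1))) = ⊤) {F : Cn (k + 1) → MvPolynomial (Fin 2) ℂ}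
    (h : IsReducedDivisor Λ F d) : Pool.Agent.HEF.KobayashiPositive Λ (outside Λ Set.univ fun _ : Fin 1 => F) (fewZeros Λ F) := by
  rw [outside_eq h.form, few_eq h.form]
  intro y hy ⟨p, hp⟩
  have h3 : ThreePoints (tht d F) y := by
    by_contra hcon
    exact hy ⟨y, rfl, hcon⟩
  have h0 : ∃ i, tht d F i y ≠ 0 := by
    by_contra hcon
    push Not at hcon
    refine hp y rfl ?_
    simp [PXF.form, hcon]
  obtain ⟨C, hC⟩ := (h.bd hspan).kob y h3 h0
  refine ⟨C, ?_⟩
  filter_upwards [hC] with y' hy' t g φ hc ht hφ hφg i j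
  have h1 := hy' t g φ hc ht hφ hφg
  rw [Fin.sum_univ_two]
  have hz : (0 : ℝ) ≤ C * (‖φ 0 0‖ ^ 2 + ‖φ 0 1‖ ^ 2) := (norm_nonneg _).trans h1
  fin_cases i <;> fin_cases j
  · simpa using hz
  · exact h1
  · have h2 : φ 0 1 * deriv φ 0 0 - φ 0 0 * deriv φ 0 1 = -(φ 0 0 * deriv φ 0 1 - φ 0 1 * deriv φ 0 0) := by ring
    change ‖φ 0 1 * deriv φ 0 0 - φ 0 0 * deriv φ 0 1‖ ≤ _
    rw [h2, norm_neg]
    exact h1
  · simpa using hz

end Pool.Agent.PX
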