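import Pool.Agent.PX.F.FInt
import Pool.Agent.PX.Front
import Pool.Agent.G4.V.Defs
import Pool.Agent.G4.Simp
import Pool.Agent.TG.GuL

/-!
# PX F Tr: the data `PD` of a theta form

`exists_pd` (`Front`); `Simp Λ` from `IsSimple` (`G4/Simp`, `simp_of_span`), `Lat Λ` from `TGF.gu_lat`; the quasi-periodicity in the form of `PD.per` (`wt W y = ∑ ‖W i y‖ ^ 2`); `simpleZeros`: `form θ y x = Fo θ y (toLp x)`, the derivative of the form on `Fin 2 → ℂ` and on `EN 1` (compose with the linear equivalence).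
-/

set_option autoImplicit false

open Topology Filter Metric MvPolynomial

namespace Pool.Agent.PX

open Pool.Agent.H17 (PN VanishesAt HolomorphicInto puncturedDisc ZariskiClosedIn)
open Pool.Agent.H17LG.Variety (FunField IsLogGeneralType)
open Pool.Agent.H62.FC (Homog)
open Pool.Agent.H62.SA (locVar OnBd)
open Pool.Agent.H17EF (projVar)
open Pool.Agent.H36.BP (EN fs wd)
open Pool.Agent.H62.EF (MN pr)
open Pool.Agent.AD (Vd IsHolomorphicTorusMap)
open Pool.Agent.TG (Lat Gd)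
open Pool.Agent.G3 (wt TT LLift)
open Pool.Agent.G4 (Few Simp)
open Pool.Agent.PXF (Cn form IsSimple IsThetaForm IsReduced ThreePoints Avoids HolomorphicIntoTorus IsCurve)
open Pool.Agent.G4F (GGLCOpen)

variable {N k d r : ℕ} {Λ : AddSubgroup (Vd (k + 1))} {D : Set (Vd (k + 1))} {Bad : Vd (k + 1) → Set (Vd (k + 1))} {θ : Fin (d + 1) → Vd (k + 1) → ℂ}
  {W : Fin r → Vd (k + 1) →L[ℂ] ℂ}


private theorem fd_form (θ : Fin (d + 1) → Cn (k + 1) → ℂ) (y : Cn (k + 1)) (x v : EN 1) :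
    Fd θ y x v = fderiv ℂ (form θ y) (EuclideanSpace.equiv (Fin 2) ℂ x) (EuclideanSpace.equiv (Fin 2) ℂ v) := by
  have h1 : Fo θ y = form θ y ∘ (EuclideanSpace.equiv (Fin 2) ℂ) := by
    funext x
    rfl
  unfold Fd
  rw [h1, ContinuousLinearEquiv.comp_right_fderiv]
  rfl

theorem exists_data (Λ : AddSubgroup (Cn (k + 1))) [DiscreteTopology Λ] (hspan : Submodule.span ℝ (Λ : Set (Cn (k + 1))) = ⊤) (hs : IsSimple Λ) (hd : 3 ≤ d)
    {θ : Fin (d + 1) → Cn (k + 1) → ℂ} (h : IsThetaForm Λ θ) (h' : IsReduced θ) :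
    ∃ (r : ℕ) (W : Fin r → Vd (k + 1) →L[ℂ] ℂ) (D : Set (Vd (k + 1))) (Bad : Vd (k + 1) → Set (Vd (k + 1))), PD Λ D Bad θ W := by
  obtain ⟨r, W, hpos, hW⟩ := h.quasiPeriodic
  obtain ⟨y₀, hy₀⟩ := h'.simpleZeros
  have hper : ∀ l ∈ Λ, ∀ y, ∃ e : ℂ, ‖e‖ * Real.exp (-wt W (y + l)) = Real.exp (-wt W y) ∧ ∀ i, θ i (y + l) = e * θ i y := by
    intro l hl y
    obtain ⟨e, he, h1⟩ := hW l hl y
    refine ⟨e, ?_, h1⟩
    rw [he, ← Real.exp_add]
    unfold wt
    congr 1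
    ring
  have hnv : NV θ := fun y hy b => h'.codimension y hy (EuclideanSpace.equiv (Fin 2) ℂ b)
  have h0 : ∀ x : EN 1, x ≠ 0 → Fo θ y₀ x = 0 → ∃ v, Fd θ y₀ x v ≠ 0 := by
    intro x hx hx0
    by_contra hc
    push Not at hc
    refine hy₀ (EuclideanSpace.equiv (Fin 2) ℂ x) (fun h1 => hx ?_) hx0 ?_
    · exact (EuclideanSpace.equiv (Fin 2) ℂ).injective (h1.trans (map_zero _).symm)
    · ext v
      have h2 := hc ((EuclideanSpace.equiv (Fin 2) ℂ).symm v)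
      rw [fd_form, ContinuousLinearEquiv.apply_symm_apply] at h2
      simpa using h2
  obtain ⟨D, Bad, hPD⟩ := exists_pd (Pool.Agent.TGF.gu_lat Λ hspan) (Pool.Agent.G4.simp_of_span hs) hd h.holomorphic hper hpos hnv h0
  exact ⟨r, W, D, Bad, hPD⟩

end Pool.Agent.PX
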