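import Pool.Agent.PX.F.Comp
import Pool.Agent.H36.BP.MainA

/-!
# PX F YBr: entire curves in varieties over `T`

`curve_of`, `IsHyperbolicModulo.entire`: if some `f z₀` is not a zero of `R` then `u (f z₀) ∉ S`, so `u ∘ f` and `v ∘ f` are constant, `f` has values in a finite set (`finite`), and is constant (continuous on a connected set; for example for a form separating the points).
-/

set_option autoImplicit false

open Topology Filter Metric MvPolynomial

namespace Pool.Agent.PX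

open Pool.Agent.H17 (PN VanishesAt HolomorphicInto puncturedDisc ZariskiClosedIn)
open Pool.Agent.H17LG.Variety (FunField IsLogGeneralType)
open Pool.Agent.H62.FC (Homog)
open Pool.Agent.H62.SA (locVar OnBd)
open Pool.Agent.H17EF (projVar)
open Pool.Agent.H36.BP (EN fs wd)
open Pool.Agent.H62.EF (MN pr)
open Pool.Agent.AD (Vd IsHolomorphicTorusMap)
open Pool.Agent.TG (Lat Gd)
open Pool.Agent.G3 (wt TT LLift)
open Pool.Agent.G4 (Few Simp)
open Pool.Agent.PXF (Cn form IsSimple IsThetaForm IsReduced HasNoLines ThreePoints Avoids HolomorphicIntoTorus IsCurve IsCurveIn IsHyperbolicModulo IsFiniteOver complement fewPoints KobayashiPositive)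
open Pool.Agent.G4F (GGLCOpen)

variable {N k d r : ℕ} {Λ : AddSubgroup (Vd (k + 1))} {D : Set (Vd (k + 1))} {Bad : Vd (k + 1) → Set (Vd (k + 1))} {θ : Fin (d + 1) → Vd (k + 1) → ℂ}
  {W : Fin r → Vd (k + 1) →L[ℂ] ℂ}


/-- A holomorphic curve which is in a finite set near `z₀` is constant near `z₀`. -/
private theorem locally_const_aux {f : ℂ → PN N} {z₀ : ℂ} (hf : HolomorphicInto f {z₀}) {S : Set (PN N)} (hS : S.Finite) (h : ∀ᶠ z in 𝓝 z₀, f z ∈ S) :
    ∀ᶠ z in 𝓝 z₀, f z = f z₀ := by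
  obtain ⟨φ, hφ, he⟩ := hf z₀ rfl
  obtain ⟨h0, hf0⟩ := he.self_of_nhds
  obtain ⟨j, hj⟩ : ∃ j, φ z₀ j ≠ 0 := by
    by_contra hcon
    push Not at hcon
    exact h0 (funext hcon)
  have hφi : ∀ i, AnalyticAt ℂ (fun z => φ z i) z₀ := fun i => analyticAt_pi_iff.1 hφ i
  have hH : AnalyticAt ℂ (fun z => fun i => φ z i / φ z j) z₀ := analyticAt_pi_iff.2 fun i => (hφi i).div (hφi j) hj
  obtain ⟨r, hr, hb⟩ := Metric.eventually_nhds_iff_ball.1 (((hH.eventually_analyticAt.and he).and h).and ((hφi j).continuousAt.eventually_ne hj))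
  let T : Set (Fin (N + 1) → ℂ) := (fun (x : PN N) i => x.rep i / x.rep j) '' S
  have hT : T.Finite := hS.image _
  have hmaps : ∀ z ∈ ball z₀ r, (fun i => φ z i / φ z j) ∈ T := by
    intro z hz
    obtain ⟨⟨⟨h1, h2⟩, h3⟩, h4⟩ := hb z hz
    obtain ⟨h5, h6⟩ := h2
    have hmk : Projectivization.mk ℂ (Projectivization.mk ℂ (φ z) h5).rep (Projectivization.rep_nonzero _) = Projectivization.mk ℂ (φ z) h5 := Projectivization.mk_rep _
    obtain ⟨κ, hκr⟩ := (Projectivization.mk_eq_mk_iff' ℂ _ _ _ _).1 hmk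
    have hκ : κ ≠ 0 := by
      rintro rfl
      apply Projectivization.rep_nonzero (Projectivization.mk ℂ (φ z) h5)
      rw [← hκr, zero_smul]
    refine ⟨f z, h3, ?_⟩
    funext i
    simp only
    rw [h6, ← hκr, Pi.smul_apply, Pi.smul_apply, smul_eq_mul, smul_eq_mul, mul_div_mul_left _ _ hκ]
  have hcont : ContinuousOn (fun z => fun i => φ z i / φ z j) (ball z₀ r) := fun z hz => (hb z hz).1.1.1.continuousAt.continuousWithinAt
  obtain ⟨y, -, hy⟩ := (convex_ball z₀ r).isPreconnected.eqOn_const_of_mapsTo hT.isDiscrete hcont (fun z hz => hmaps z hz)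
    ⟨_, hmaps z₀ (mem_ball_self hr)⟩
  filter_upwards [ball_mem_nhds z₀ hr] with z hz
  obtain ⟨⟨⟨-, h2⟩, -⟩, h4⟩ := hb z hz
  obtain ⟨h5, h6⟩ := h2
  rw [h6, hf0, Projectivization.mk_eq_mk_iff']
  refine ⟨φ z j / φ z₀ j, ?_⟩
  have h7 := (hy hz).trans (hy (mem_ball_self hr)).symm
  funext i
  have h8 := congrFun h7 i
  simp only at h8
  rw [div_eq_div_iff h4 hj] at h8
  rw [Pi.smul_apply, smul_eq_mul]
  field_simp
  linear_combination -h8

theorem y_brody {P : Ideal (MvPolynomial (Fin (N + 1)) ℂ)} (hP : Homog P) {s m : ℕ} {G : Fin s → MvPolynomial (Fin (N + 1)) ℂ} {T : Set ((Cn (k + 1) ⧸ Λ) × PN m)} {S : Set (Cn (k + 1) ⧸ Λ)}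
    (H : IsHyperbolicModulo Λ T S) {u : PN N → Cn (k + 1) ⧸ Λ} {v : PN N → PN m} (h : IsFiniteOver P G Λ T S u v)
    {R : MvPolynomial (Fin (N + 1)) ℂ} (hR : ∀ x ∈ projVar P, u x ∈ S → VanishesAt R x)
    {f : ℂ → PN N} (hf : HolomorphicInto f Set.univ) (hfU : ∀ z, f z ∈ locVar P G) (hne : ∃ z w, f z ≠ f w) (z : ℂ) : VanishesAt R (f z) := by
  by_contra hz
  have hproj : ∀ w, f w ∈ projVar P := fun w => (hfU w).1
  have hc : IsCurveIn Λ T (fun z => u (f z)) (fun z => v (f z)) Set.univ := curve_of h hf isOpen_univ fun w _ => hfU w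
  have hent := H.entire _ _ hc
  have hS : u (f z) ∉ S := fun hS => hz (hR (f z) (hproj z) hS)
  have hfin := h.finite (f z) (hproj z)
  have hmem : ∀ w, f w ∈ {x' | x' ∈ projVar P ∧ u x' = u (f z) ∧ v x' = v (f z)} :=
    fun w => ⟨hproj w, (hent z w).1.symm, ((hent z w).2 hS).symm⟩
  have hloc : ∀ᶠ w in 𝓝 (0 : ℂ), f w = f 0 :=
    locally_const_aux (fun w _ => hf w (Set.mem_univ w)) hfin (Filter.Eventually.of_forall hmem)
  have hall := Pool.Agent.H36.BP.const_identity isPreconnected_univ hf (Set.mem_univ (0 : ℂ)) hloc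
  obtain ⟨a, b, hab⟩ := hne
  exact hab ((hall a (Set.mem_univ a)).trans (hall b (Set.mem_univ b)).symm)

end Pool.Agent.PX
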