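import Pool.Agent.PX.F.YBr
import Pool.Agent.PX.F.Clu
import Pool.Agent.G4.V.Down

/-!
# PX F YG: varieties of log general type over `T`

`Ξ = {x ∈ U | R x = 0}` (`special`); `brody` from `y_brody`, `picard` from `IsHyperbolicModulo.punctured` (a point `z` with `R (f z) ≠ 0` has `u (f z) ∉ S`) and `ext_of_finite`; `strongly` from `strongly_open` (`G4/V/Down`); `proper`: `R ∉ P` and `U` is not empty (`H7.Bir.mem_of_open`).
-/

set_option autoImplicit false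

open Topology Filter Metric MvPolynomial

namespace Pool.Agent.PX

open Pool.Agent.H17 (PN VanishesAt HolomorphicInto puncturedDisc ZariskiClosedIn)
open Pool.Agent.H17LG.Variety (FunField IsLogGeneralType)
open Pool.Agent.H62.FC (Homog)
open Pool.Agent.H62.SA (locVar OnBd)
open Pool.Agent.H17EF (projVar)
open Pool.Agent.H36.BP (EN fs wd)
open Pool.Agent.H62.EF (MN pr)
open Pool.Agent.AD (Vd IsHolomorphicTorusMap)
open Pool.Agent.TG (Lat Gd)
open Pool.Agent.G3 (wt TT LLift)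
open Pool.Agent.G4 (Few Simp)
open Pool.Agent.PXF (Cn form IsSimple IsThetaForm IsReduced HasNoLines ThreePoints Avoids HolomorphicIntoTorus IsCurve IsCurveIn IsHyperbolicModulo IsFiniteOver complement fewPoints KobayashiPositive)
open Pool.Agent.G4F (GGLCOpen)

variable {N k d r : ℕ} {Λ : AddSubgroup (Vd (k + 1))} {D : Set (Vd (k + 1))} {Bad : Vd (k + 1) → Set (Vd (k + 1))} {θ : Fin (d + 1) → Vd (k + 1) → ℂ}
  {W : Fin r → Vd (k + 1) →L[ℂ] ℂ}


theorem y_gglo (hΛ : Lat Λ) {P : Ideal (MvPolynomial (Fin (N + 1)) ℂ)} [P.IsPrime] (hP : Homog P) {s m : ℕ} {G : Fin s → MvPolynomial (Fin (N + 1)) ℂ} (hG : ∀ m, ∃ n, (G m).IsHomogeneous n)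
    (hne : (locVar P G).Nonempty) {c : ℕ} (hdim : ∃ z : Fin c → FunField P, IsTranscendenceBasis ℂ z) {T : Set ((Cn (k + 1) ⧸ Λ) × PN m)} {S : Set (Cn (k + 1) ⧸ Λ)}
    (H : IsHyperbolicModulo Λ T S) {u : PN N → Cn (k + 1) ⧸ Λ} {v : PN N → PN m} (h : IsFiniteOver P G Λ T S u v)
    (hgt : IsLogGeneralType (K := FunField P) (k := c) (OnBd P G)) : ∃ Ξ : Set (PN N), GGLCOpen P G Ξ := by
  obtain ⟨e, R, hRe, hRP, hR⟩ := h.special
  have hclosed : ZariskiClosedIn (locVar P G) {x | x ∈ locVar P G ∧ VanishesAt R x} := by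
    refine ⟨{R}, fun S hS => ?_, ?_⟩
    · rw [Set.mem_singleton_iff.1 hS]
      exact ⟨e, hRe⟩
    · ext x
      constructor
      · rintro ⟨h1, h2⟩
        refine ⟨h1, fun S hS => ?_⟩
        rw [Set.mem_singleton_iff.1 hS]
        exact h2
      · rintro ⟨h1, h2⟩
        exact ⟨h1, h2 R rfl⟩
  have hbrody : ∀ f : ℂ → PN N, HolomorphicInto f Set.univ → (∀ z, f z ∈ locVar P G) → (∃ z w, f z ≠ f w) →
      ∀ z, f z ∈ {x | x ∈ locVar P G ∧ VanishesAt R x} :=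
    fun f hf hfU hn z => ⟨hfU z, y_brody hP H h hR hf hfU hn z⟩
  refine ⟨{x | x ∈ locVar P G ∧ VanishesAt R x}, hclosed, ?_, ?_, ?_, hbrody, ?_⟩
  · intro heq
    apply hRP
    refine Pool.Agent.H7.Bir.mem_of_open hP hG hne hRe fun x hx => ?_
    rw [← heq] at hx
    exact hx.2
  · rintro w _ ⟨z', hz'⟩
    obtain ⟨z, hz⟩ := hdim
    obtain rfl := Pool.Agent.H22.TB.eq_of_basis hz hz'
    exact hgt
  · intro f hf hfU hfΞ
    have hc := curve_of h hf (isOpen_ball.sdiff isClosed_singleton) hfU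
    obtain ⟨⟨t', ht', htt⟩, hg⟩ := H.punctured _ _ hc
    obtain ⟨z, hz, hzΞ⟩ := hfΞ
    obtain ⟨g', hg', hgg⟩ := hg ⟨z, hz, fun h3 => hzΞ ⟨hfU z hz, hR _ (hfU z hz).1 h3⟩⟩
    exact ext_of_finite hP hΛ h hf (fun z hz => (hfU z hz).1) ht' hg' htt hgg
  · exact fun Q _ hQ hPQ hQΞ hz' => Pool.Agent.G4F.strongly_open hG hclosed hbrody Q hQ hPQ hQΞ hz'

end Pool.Agent.PX
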